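import Pool.Agent.V5helper42.FG.F
import Pool.Agent.K3h31.LP.Prod

/-!
# Signed sums over moduli, all residues: the sieve (helper42)
-/

set_option autoImplicit false

namespace Pool.Agent.V5helper42.FP

open Finset Filter Topology Asymptotics
open Pool.Agent.V5helper42.FG
open Pool.Agent.N610.MS (V e alt t_BON t_LEG)

lemma vc_V (a z : ℕ) (ha : a ≠ 0) : vc a z = V a.primeFactors z := by
  unfold vc V
  congr 1
  refine filter_congr fun h _ => ?_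
  constructor
  · intro h1 p hp h2
    have h3 := Nat.dvd_gcd h2 (Nat.dvd_of_mem_primeFactors hp)
    rw [h1] at h3
    exact (Nat.prime_of_mem_primeFactors hp).one_lt.ne' (Nat.dvd_one.1 h3)
  · intro h1
    rw [Nat.coprime_iff_gcd_eq_one]
    by_contra h2
    obtain ⟨p, hp, hpd⟩ := Nat.exists_prime_and_dvd h2
    exact h1 p (Nat.mem_primeFactors.2 ⟨hp, hpd.trans (Nat.gcd_dvd_right _ _), ha⟩) (hpd.trans (Nat.gcd_dvd_left _ _))

lemma x01 (P : Finset ℕ) (hP : ∀ p ∈ P, p.Prime) : ∀ p ∈ P, 0 ≤ (1 : ℝ) / p ∧ (1 : ℝ) / p ≤ 1 := by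
  intro p hp
  have : (1 : ℝ) ≤ p := by exact_mod_cast (hP p hp).one_le
  exact ⟨by positivity, by rw [div_le_one (by linarith)]; exact this⟩

lemma prod01 (P : Finset ℕ) (hP : ∀ p ∈ P, p.Prime) : 0 ≤ ∏ p ∈ P, (1 - 1 / (p : ℝ)) ∧ ∏ p ∈ P, (1 - 1 / (p : ℝ)) ≤ 1 := by
  have h := x01 P hP
  constructor
  · exact prod_nonneg fun p hp => by linarith [(h p hp).2]
  · exact prod_le_one (fun p hp => by linarith [(h p hp).2]) fun p hp => by linarith [(h p hp).1]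

/-- small primes -/
lemma small_part (P : Finset ℕ) (hP : ∀ p ∈ P, p.Prime) (k z : ℕ) :
    |(V P z : ℝ) - z * ∏ p ∈ P, (1 - 1 / (p : ℝ))| ≤
      2 * z * e P (fun p => 1 / (p : ℝ)) (k + 1) + ((P.card : ℝ) + 1) ^ k := by
  obtain ⟨h1, _⟩ := t_LEG t_BON P hP k z (Nat.cast_nonneg z)
  obtain ⟨h2, _⟩ := t_BON P (fun p => 1 / (p : ℝ)) (x01 P hP)
  obtain ⟨h3, h4⟩ := h2 k
  rw [Nat.floor_natCast] at h1
  have h5 : |alt P (fun p => 1 / (p : ℝ)) k - ∏ p ∈ P, (1 - 1 / (p : ℝ))| ≤ e P (fun p => 1 / (p : ℝ)) (k + 1) := by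
    rcases Nat.even_or_odd k with hk | hk
    · rw [hk.neg_one_pow, one_mul] at h3 h4
      rw [abs_of_nonneg h3]
      exact h4
    · rw [hk.neg_one_pow, neg_one_mul] at h3 h4
      rw [← abs_neg, abs_of_nonneg h3]
      exact h4
  have hz : (0 : ℝ) ≤ z := Nat.cast_nonneg z
  have h6 : (V P z : ℝ) - z * ∏ p ∈ P, (1 - 1 / (p : ℝ)) = ((V P z : ℝ) - z * alt P (fun p => 1 / (p : ℝ)) k) +
      z * (alt P (fun p => 1 / (p : ℝ)) k - ∏ p ∈ P, (1 - 1 / (p : ℝ))) := by ring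
  rw [h6]
  refine (abs_add_le _ _).trans ?_
  rw [abs_mul, abs_of_nonneg hz]
  have h7 := mul_le_mul_of_nonneg_left h5 hz
  linarith

lemma prod_ge (P : Finset ℕ) (hP : ∀ p ∈ P, p.Prime) : 1 - ∑ p ∈ P, 1 / (p : ℝ) ≤ ∏ p ∈ P, (1 - 1 / (p : ℝ)) := by
  classical
  induction P using Finset.induction_on with
  | empty => simp
  | insert a S ha ih =>
    rw [sum_insert ha, prod_insert ha]
    have h1 := ih fun p hp => hP p (mem_insert_of_mem hp)
    have h2 := prod01 S fun p hp => hP p (mem_insert_of_mem hp)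
    have h3 := x01 (insert a S) hP a (mem_insert_self _ _)
    nlinarith [h3.1, h3.2, h2.1, h2.2]

/-- removing the large primes -/
lemma large_part (P1 P2 : Finset ℕ) (hP2 : ∀ p ∈ P2, p.Prime) (z : ℕ) :
    (V (P1 ∪ P2) z : ℝ) ≤ V P1 z ∧ (V P1 z : ℝ) - z * ∑ p ∈ P2, 1 / (p : ℝ) ≤ V (P1 ∪ P2) z := by
  classical
  constructor
  · have : V (P1 ∪ P2) z ≤ V P1 z := by
      unfold V
      apply card_le_card
      intro h hh
      rw [mem_filter] at hh ⊢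
      exact ⟨hh.1, fun p hp => hh.2 p (mem_union_left _ hp)⟩
    exact_mod_cast this
  · have h1 : V P1 z ≤ V (P1 ∪ P2) z + ∑ p ∈ P2, z / p := by
      unfold V
      have h2 : (Icc 1 z).filter (fun h => ∀ p ∈ P1, ¬ p ∣ h) ⊆
          (Icc 1 z).filter (fun h => ∀ p ∈ P1 ∪ P2, ¬ p ∣ h) ∪ P2.biUnion fun p => (Icc 1 z).filter (fun h => p ∣ h) := by
        intro h hh
        rw [mem_filter] at hh
        rw [mem_union, mem_filter, mem_biUnion]
        by_cases h3 : ∀ p ∈ P2, ¬ p ∣ h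
        · left
          refine ⟨hh.1, fun p hp => ?_⟩
          rcases mem_union.1 hp with h4 | h4
          · exact hh.2 p h4
          · exact h3 p h4
        · right
          push Not at h3
          obtain ⟨p, hp, hpd⟩ := h3
          exact ⟨p, hp, mem_filter.2 ⟨hh.1, hpd⟩⟩
      refine (card_le_card h2).trans ((card_union_le _ _).trans ?_)
      apply Nat.add_le_add_left
      refine card_biUnion_le.trans ?_
      apply sum_le_sum
      intro p _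
      have : (Icc 1 z).filter (fun h => p ∣ h) = (Ioc 0 z).filter (fun h => p ∣ h) := by
        congr 1
      rw [this, Nat.Ioc_filter_dvd_card_eq_div]
    have h2 : (V P1 z : ℝ) ≤ V (P1 ∪ P2) z + ∑ p ∈ P2, ((z / p : ℕ) : ℝ) := by exact_mod_cast h1
    have h3 : ∑ p ∈ P2, ((z / p : ℕ) : ℝ) ≤ z * ∑ p ∈ P2, 1 / (p : ℝ) := by
      rw [mul_sum]
      apply sum_le_sum
      intro p _
      rw [mul_one_div]
      exact Nat.cast_div_le
    linarith

/-- Legendre's formula with two kinds of primes -/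
lemma sieve (P1 P2 : Finset ℕ) (hP1 : ∀ p ∈ P1, p.Prime) (hP2 : ∀ p ∈ P2, p.Prime) (hd : Disjoint P1 P2) (k z : ℕ) :
    |(V (P1 ∪ P2) z : ℝ) - z * ∏ p ∈ P1 ∪ P2, (1 - 1 / (p : ℝ))| ≤
      2 * z * e P1 (fun p => 1 / (p : ℝ)) (k + 1) + ((P1.card : ℝ) + 1) ^ k + z * ∑ p ∈ P2, 1 / (p : ℝ) := by
  obtain ⟨h1, h2⟩ := abs_le.1 (small_part P1 hP1 k z)
  obtain ⟨h3, h4⟩ := large_part P1 P2 hP2 z
  rw [prod_union hd]
  have h5 := prod01 P1 hP1
  have h6 := prod01 P2 hP2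
  have h7 := prod_ge P2 hP2
  have hz : (0 : ℝ) ≤ z := Nat.cast_nonneg z
  obtain ⟨A, hA⟩ : ∃ A : ℝ, A = ∏ p ∈ P1, (1 - 1 / (p : ℝ)) := ⟨_, rfl⟩
  obtain ⟨B, hB⟩ : ∃ B : ℝ, B = ∏ p ∈ P2, (1 - 1 / (p : ℝ)) := ⟨_, rfl⟩
  obtain ⟨S, hS⟩ : ∃ S : ℝ, S = ∑ p ∈ P2, 1 / (p : ℝ) := ⟨_, rfl⟩
  rw [← hA] at h1 h2 h5 ⊢
  rw [← hB] at h6 h7 ⊢
  rw [← hS] at h4 h7 ⊢
  have h8 : A - A * B ≤ S := by nlinarith
  have h9 : 0 ≤ A - A * B := by nlinarith
  have h10 : z * (A - A * B) ≤ z * S := mul_le_mul_of_nonneg_left h8 hz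
  have h11 : 0 ≤ z * (A - A * B) := mul_nonneg hz h9
  rw [abs_le]
  constructor <;> nlinarith

end Pool.Agent.V5helper42.FP
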