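import Pool.Agent.V5helper42.FP.A

/-!
# Signed sums over moduli, all residues: the sieve, uniformly in the residue (helper42)
-/

set_option autoImplicit false

namespace Pool.Agent.V5helper42.FP

open Finset Filter Topology Asymptotics
open Pool.Agent.V5helper42.FG
open Pool.Agent.N610.MS (V e alt t_BON t_LEG)

/-- `φ(a) / a` -/
noncomputable def rho (a : ℕ) : ℝ := ∏ p ∈ a.primeFactors, (1 - 1 / (p : ℝ))

/-- the level -/
noncomputable def kp (A : ℕ) (m : ℝ) : ℕ := ⌊4 * ((A : ℝ) + 2) * (m / Real.log m)⌋₊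

lemma pow_fact (T : ℕ) (s : ℝ) (hs : 0 ≤ s) (hT : 1 ≤ T) : s ^ T / (T.factorial : ℝ) ≤ (Real.exp 1 * s / T) ^ T := by
  have h1 := Real.pow_div_factorial_le_exp (T : ℝ) (Nat.cast_nonneg T) T
  have hT0 : (0 : ℝ) < T := by exact_mod_cast hT
  have hf : (0 : ℝ) < (T.factorial : ℝ) := by exact_mod_cast Nat.factorial_pos T
  rw [div_le_iff₀ hf] at h1 ⊢
  have h2 : (Real.exp 1 * s / T) ^ T = s ^ T * (Real.exp T / (T : ℝ) ^ T) := by
    rw [div_pow, mul_pow, ← Real.exp_nat_mul, mul_one]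
    ring
  rw [h2, mul_assoc]
  apply le_mul_of_one_le_right (pow_nonneg hs _)
  rw [div_mul_eq_mul_div, le_div_iff₀ (by positivity), one_mul]
  exact h1

structure SF (A : ℕ) (C L : ℝ) : Prop where
  h1 : 4 ≤ L
  h2 : Real.log (((A : ℝ) + 3) * Real.log L) + C ≤ Real.log L ^ (1 / 2 : ℝ) / 8
  h3 : 0 < Real.log (Real.log L)
  h4 : Real.log (Real.log L) ≤ 2 * Real.log L ^ (1 / 4 : ℝ)
  h5 : 1 ≤ Real.log L / Real.log (Real.log L)
  h6 : 1 ≤ Real.log L
  h7 : 3 ≤ L ^ (A + 2)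
  h8 : L ^ (A + 2) + 1 ≤ L ^ (A + 3)

lemma sf_ev (A : ℕ) (C : ℝ) : ∀ᶠ L : ℝ in atTop, SF A C L := by
  have e2 : ∀ᶠ m : ℝ in atTop, Real.log (((A : ℝ) + 3) * m) + C ≤ m ^ (1 / 2 : ℝ) / 8 := by
    have h := (isLittleO_log_rpow_atTop (by norm_num : (0:ℝ) < 1 / 2)).bound (by norm_num : (0:ℝ) < 1 / 16)
    filter_upwards [h, eventually_ge_atTop 1,
      (tendsto_rpow_atTop (by norm_num : (0:ℝ) < 1 / 2)).eventually_ge_atTop (16 * (Real.log ((A : ℝ) + 3) + C))] with m hm h1 h2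
    rw [Real.norm_eq_abs, Real.norm_eq_abs, abs_of_nonneg (Real.log_nonneg h1),
      abs_of_nonneg (Real.rpow_nonneg (by linarith) _)] at hm
    rw [Real.log_mul (by positivity) (by linarith)]
    linarith
  have e4 : ∀ᶠ m : ℝ in atTop, Real.log m ≤ 2 * m ^ (1 / 4 : ℝ) := by
    have h := (isLittleO_log_rpow_atTop (by norm_num : (0:ℝ) < 1 / 4)).bound (by norm_num : (0:ℝ) < 2)
    filter_upwards [h, eventually_ge_atTop 1] with m hm h1
    rw [Real.norm_eq_abs, Real.norm_eq_abs, abs_of_nonneg (Real.log_nonneg h1),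
      abs_of_nonneg (Real.rpow_nonneg (by linarith) _)] at hm
    exact hm
  have e5 : ∀ᶠ m : ℝ in atTop, 1 ≤ m / Real.log m := by
    filter_upwards [eventually_gt_atTop 1] with m hm
    have := Real.log_pos hm
    rw [le_div_iff₀ this, one_mul]
    have := Real.log_le_sub_one_of_pos (by linarith : 0 < m)
    linarith
  filter_upwards [eventually_ge_atTop 4, Real.tendsto_log_atTop.eventually e2, Real.tendsto_log_atTop.eventually e4,
    Real.tendsto_log_atTop.eventually e5, Real.tendsto_log_atTop.eventually_gt_atTop 1,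
    (tendsto_pow_atTop (by omega : A + 2 ≠ 0)).eventually_ge_atTop (3 : ℝ)] with L h1 h2 h4 h5 h6 h7
  refine ⟨h1, h2, Real.log_pos h6, h4, h5, h6.le, h7, ?_⟩
  have : L ^ (A + 3) = L ^ (A + 2) * L := by ring
  rw [this]
  nlinarith

/-- the uniform sieve -/
theorem unif (A : ℕ) : ∃ D0 : ℝ, 0 < D0 ∧ ∀ᶠ x : ℕ in atTop, ∀ a : ℕ, 1 ≤ a → a ≤ x → ∀ z : ℕ,
    Real.exp (D0 * (Real.log (Real.log x) ^ 2 / Real.log (Real.log (Real.log x)))) ≤ z →
      |(vc a z : ℝ) - rho a * z| ≤ z / Real.log x ^ A := by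
  obtain ⟨C, hC⟩ := Pool.Agent.K3h31.LP.sum_inv_le
  refine ⟨12 * ((A : ℝ) + 2), by positivity, ?_⟩
  have hlogN : Tendsto (fun x : ℕ => Real.log (x : ℝ)) atTop atTop :=
    Real.tendsto_log_atTop.comp tendsto_natCast_atTop_atTop
  filter_upwards [hlogN.eventually (sf_ev A C), eventually_gt_atTop 1] with x F hx1 a ha1 hax z hz
  obtain ⟨L, hL⟩ : ∃ L : ℝ, L = Real.log x := ⟨_, rfl⟩
  rw [← hL] at F hz ⊢
  obtain ⟨h1, h2, h3, h4, h5, h6, h7, h8⟩ := F
  obtain ⟨m, hm⟩ : ∃ m : ℝ, m = Real.log L := ⟨_, rfl⟩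
  rw [← hm] at h2 h3 h4 h5 h6 hz
  obtain ⟨ℓ, hℓ⟩ : ∃ ℓ : ℝ, ℓ = Real.log m := ⟨_, rfl⟩
  rw [← hℓ] at h3 h4 h5 hz
  have hL0 : 0 < L := by linarith
  have hm0 : 0 < m := by linarith
  have hxR : (0 : ℝ) < x := by exact_mod_cast (by omega : 0 < x)
  have hxe : (x : ℝ) = Real.exp L := by rw [hL, Real.exp_log hxR]
  have hz0 : (0 : ℝ) < z := lt_of_lt_of_le (Real.exp_pos _) hz
  rw [vc_V a z (by omega)]
  obtain ⟨z0, hz0d⟩ : ∃ z0 : ℕ, z0 = ⌈L ^ (A + 2)⌉₊ := ⟨_, rfl⟩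
  have hz0a : L ^ (A + 2) ≤ z0 := by rw [hz0d]; exact Nat.le_ceil _
  have hz0b : (z0 : ℝ) ≤ L ^ (A + 3) := by
    have := Nat.ceil_lt_add_one (by positivity : 0 ≤ L ^ (A + 2))
    rw [← hz0d] at this
    linarith
  have hz03 : 3 ≤ z0 := by exact_mod_cast h7.trans hz0a
  obtain ⟨P, hP⟩ : ∃ P : Finset ℕ, P = a.primeFactors := ⟨_, rfl⟩
  have hPp : ∀ p ∈ P, p.Prime := fun p hp => by rw [hP] at hp; exact Nat.prime_of_mem_primeFactors hp
  obtain ⟨P1, hP1⟩ : ∃ P1 : Finset ℕ, P1 = P.filter (fun p => p ≤ z0) := ⟨_, rfl⟩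
  obtain ⟨P2, hP2⟩ : ∃ P2 : Finset ℕ, P2 = P.filter (fun p => ¬ p ≤ z0) := ⟨_, rfl⟩
  have hun : P1 ∪ P2 = P := by rw [hP1, hP2]; exact filter_union_filter_not_eq _ _
  have hdis : Disjoint P1 P2 := by rw [hP1, hP2]; exact disjoint_filter_filter_not _ _ _
  have hcardP : (P.card : ℝ) ≤ 2 * L := by
    apply card_P P hPp
    have hd : ∏ p ∈ P, p ∣ a := by rw [hP]; exact Nat.prod_primeFactors_dvd a
    have h9 : ∏ p ∈ P, p ≤ x := (Nat.le_of_dvd (by omega) hd).trans hax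
    rw [← hxe]
    exact_mod_cast h9
  have hP1p : ∀ p ∈ P1, p.Prime := fun p hp => by rw [hP1, mem_filter] at hp; exact hPp p hp.1
  have hP2p : ∀ p ∈ P2, p.Prime := fun p hp => by rw [hP2, mem_filter] at hp; exact hPp p hp.1
  obtain ⟨k, hk⟩ : ∃ k : ℕ, k = kp A m := ⟨_, rfl⟩
  obtain ⟨r, hr⟩ : ∃ r : ℝ, r = 4 * ((A : ℝ) + 2) * (m / ℓ) := ⟨_, rfl⟩
  have hr0 : 0 ≤ r := by rw [hr]; positivity
  have hkr : (k : ℝ) ≤ r := by
    rw [hk, hr, hℓ]
    exact Nat.floor_le (by rw [← hℓ]; positivity)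
  have hkr2 : r ≤ (k : ℝ) + 1 := by
    rw [hk, hr, hℓ]
    exact (Nat.lt_floor_add_one _).le
  have hmain := sieve P1 P2 hP1p hP2p hdis k z
  rw [hun] at hmain
  have hrho : rho a = ∏ p ∈ P, (1 - 1 / (p : ℝ)) := by rw [hP]; rfl
  rw [hrho, mul_comm _ (z : ℝ), ← hP]
  refine hmain.trans ?_
  -- first term
  have hs : ∑ p ∈ P1, 1 / (p : ℝ) ≤ m ^ (1 / 2 : ℝ) / 8 := by
    have h9 := hC z0 hz03 P1 (by
      intro p hp
      rw [mem_filter, mem_Icc]
      have h10 := hP1p p hp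
      rw [hP1, mem_filter] at hp
      exact ⟨⟨h10.one_le, hp.2⟩, h10⟩)
    refine h9.trans (le_trans ?_ h2)
    have hlz0 : 0 < Real.log z0 := Real.log_pos (by exact_mod_cast (by omega : 1 < z0))
    have h10 : Real.log z0 ≤ ((A : ℝ) + 3) * m := by
      have h11 := Real.log_le_log (by exact_mod_cast (by omega : 0 < z0)) hz0b
      rw [Real.log_pow, ← hm] at h11
      push_cast at h11
      exact h11
    have h11 := Real.log_le_log hlz0 h10
    linarith
  have hs0 : 0 ≤ ∑ p ∈ P1, 1 / (p : ℝ) := sum_nonneg fun p _ => by positivity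
  obtain ⟨T, hT⟩ : ∃ T : ℕ, T = k + 1 := ⟨_, rfl⟩
  have hTR : (T : ℝ) = k + 1 := by rw [hT]; push_cast; ring
  have hT0 : (0 : ℝ) < T := by rw [hTR]; positivity
  have he : e P1 (fun p => 1 / (p : ℝ)) (k + 1) ≤ 1 / L ^ (A + 2) := by
    obtain ⟨_, b2, _⟩ := t_BON P1 (fun p => 1 / (p : ℝ)) (x01 P1 hP1p)
    refine (b2 (k + 1)).trans ?_
    rw [← hT]
    have h9 : (∑ p ∈ P1, 1 / (p : ℝ)) ^ T / (T.factorial : ℝ) ≤ (m ^ (1 / 2 : ℝ) / 8) ^ T / (T.factorial : ℝ) := by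
      gcongr
    refine h9.trans ((pow_fact T _ (by positivity) (by omega)).trans ?_)
    have hb : Real.exp 1 * (m ^ (1 / 2 : ℝ) / 8) / T ≤ Real.exp (-(ℓ / 4)) := by
      have hm14 : m ^ (1 / 4 : ℝ) = Real.exp (ℓ / 4) := by
        rw [Real.rpow_def_of_pos hm0, ← hℓ]
        ring_nf
      have hm12 : m ^ (1 / 2 : ℝ) = Real.exp (ℓ / 4) ^ 2 := by
        rw [Real.rpow_def_of_pos hm0, ← hℓ, ← Real.exp_nat_mul]
        push_cast
        ring_nf
      have hmm : m = Real.exp (ℓ / 4) ^ 4 := by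
        rw [← Real.exp_nat_mul, hℓ]
        push_cast
        rw [show (4 : ℝ) * (Real.log m / 4) = Real.log m by ring, Real.exp_log hm0]
      obtain ⟨q, hq⟩ : ∃ q : ℝ, q = Real.exp (ℓ / 4) := ⟨_, rfl⟩
      have hq0 : 0 < q := by rw [hq]; exact Real.exp_pos _
      rw [Real.exp_neg, ← hq]
      rw [← hq] at hm12 hmm hm14
      rw [hm12, div_le_iff₀ hT0]
      have h10 : 8 * (m / ℓ) ≤ T := by
        have hA : (0 : ℝ) ≤ A := Nat.cast_nonneg A
        have h11 : 0 ≤ m / ℓ := by positivity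
        have h12 : 8 * (m / ℓ) ≤ r := by rw [hr]; nlinarith
        rw [hTR]
        linarith
      rw [hm14] at h4
      have h11 : 8 * m ≤ T * ℓ := by
        have := mul_le_mul_of_nonneg_right h10 h3.le
        rw [mul_assoc, div_mul_cancel₀ _ h3.ne'] at this
        exact this
      have h12 : T * ℓ ≤ T * (2 * q) := mul_le_mul_of_nonneg_left h4 hT0.le
      have h13 : 4 * q ^ 3 ≤ T := by
        have h14 : 8 * q ^ 4 ≤ T * (2 * q) := by rw [← hmm]; linarith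
        have h15 : q * (4 * q ^ 3) ≤ q * T := by nlinarith
        exact le_of_mul_le_mul_left h15 hq0
      have h14 : Real.exp 1 ≤ 3 := by linarith [Real.exp_one_lt_d9]
      have h15 : Real.exp 1 * (q ^ 2 / 8) ≤ 3 * (q ^ 2 / 8) := mul_le_mul_of_nonneg_right h14 (by positivity)
      have h16 : q⁻¹ * (4 * q ^ 3) ≤ q⁻¹ * T := mul_le_mul_of_nonneg_left h13 (by positivity)
      have h17 : q⁻¹ * (4 * q ^ 3) = 4 * q ^ 2 := by field_simp
      nlinarith [sq_nonneg q]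
    calc (Real.exp 1 * (m ^ (1 / 2 : ℝ) / 8) / T) ^ T ≤ (Real.exp (-(ℓ / 4))) ^ T :=
          pow_le_pow_left₀ (by positivity) hb T
      _ = Real.exp (-(T * (ℓ / 4))) := by rw [← Real.exp_nat_mul]; ring_nf
      _ ≤ Real.exp (-(((A : ℝ) + 2) * m)) := by
          apply Real.exp_le_exp.2
          have h10 : r * (ℓ / 4) ≤ T * (ℓ / 4) := by
            apply mul_le_mul_of_nonneg_right _ (by positivity)
            rw [hTR]
            exact hkr2
          have h11 : r * (ℓ / 4) = ((A : ℝ) + 2) * m := by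
            rw [hr]
            field_simp
          linarith
      _ = 1 / L ^ (A + 2) := by
          rw [Real.exp_neg, one_div]
          congr 1
          have : ((A : ℝ) + 2) * m = ((A + 2 : ℕ) : ℝ) * m := by push_cast; ring
          rw [this, Real.exp_nat_mul, hm, Real.exp_log hL0]
  -- second term
  have h2t : ((P1.card : ℝ) + 1) ^ k ≤ z / L ^ (A + 2) := by
    have h9 : (P1.card : ℝ) + 1 ≤ L ^ 2 := by
      have h10 : (P1.card : ℝ) ≤ P.card := by
        rw [hP1]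
        exact_mod_cast card_filter_le _ _
      nlinarith
    have h10 : ((P1.card : ℝ) + 1) ^ k ≤ Real.exp (2 * r * m) := by
      calc ((P1.card : ℝ) + 1) ^ k ≤ (L ^ 2) ^ k := pow_le_pow_left₀ (add_nonneg (Nat.cast_nonneg _) zero_le_one) h9 k
        _ = Real.exp (2 * k * m) := by
            have : (2 : ℝ) * k * m = ((2 * k : ℕ) : ℝ) * m := by push_cast; ring
            rw [this, Real.exp_nat_mul, hm, Real.exp_log hL0, pow_mul]
        _ ≤ _ := by
            apply Real.exp_le_exp.2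
            have := mul_le_mul_of_nonneg_right hkr hm0.le
            linarith
    rw [le_div_iff₀ (by positivity)]
    refine le_trans (mul_le_mul_of_nonneg_right h10 (by positivity)) (le_trans ?_ hz)
    have h11 : L ^ (A + 2) = Real.exp (((A : ℝ) + 2) * m) := by
      have : ((A : ℝ) + 2) * m = ((A + 2 : ℕ) : ℝ) * m := by push_cast; ring
      rw [this, Real.exp_nat_mul, hm, Real.exp_log hL0]
    rw [h11, ← Real.exp_add]
    apply Real.exp_le_exp.2
    have h12 : 12 * ((A : ℝ) + 2) * (m ^ 2 / ℓ) = 3 * r * m := by rw [hr]; ring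
    rw [h12]
    have h13 : ((A : ℝ) + 2) * m ≤ r * m := by
      apply mul_le_mul_of_nonneg_right _ hm0.le
      have hA : (0 : ℝ) ≤ A := Nat.cast_nonneg A
      rw [hr]
      nlinarith
    linarith
  -- third term
  have h3t : ∑ p ∈ P2, 1 / (p : ℝ) ≤ 2 / L ^ (A + 1) := by
    have h9 : ∑ p ∈ P2, 1 / (p : ℝ) ≤ P2.card * (1 / L ^ (A + 2)) := by
      rw [← nsmul_eq_mul]
      apply sum_le_card_nsmul
      intro p hp
      rw [hP2, mem_filter] at hp
      apply one_div_le_one_div_of_le (by positivity)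
      have : (z0 : ℝ) ≤ p := by exact_mod_cast (not_le.1 hp.2).le
      linarith
    have h10 : (P2.card : ℝ) ≤ 2 * L := by
      have : (P2.card : ℝ) ≤ P.card := by
        rw [hP2]
        exact_mod_cast card_filter_le _ _
      linarith
    refine h9.trans ((mul_le_mul_of_nonneg_right h10 (by positivity)).trans (le_of_eq ?_))
    have : L ^ (A + 2) = L ^ (A + 1) * L := by ring
    rw [this]
    field_simp
  have t1 : 2 * (z : ℝ) * e P1 (fun p => 1 / (p : ℝ)) (k + 1) ≤ 2 * z * (1 / L ^ (A + 2)) :=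
    mul_le_mul_of_nonneg_left he (by positivity)
  have t3 : (z : ℝ) * ∑ p ∈ P2, 1 / (p : ℝ) ≤ z * (2 / L ^ (A + 1)) := mul_le_mul_of_nonneg_left h3t hz0.le
  have hfin : 2 * (z : ℝ) * (1 / L ^ (A + 2)) + z / L ^ (A + 2) + z * (2 / L ^ (A + 1)) ≤ z / L ^ A := by
    have e1 : L ^ (A + 2) = L ^ A * L ^ 2 := by ring
    have e2 : L ^ (A + 1) = L ^ A * L := by ring
    rw [e1, e2]
    have h9 : 0 < L ^ A := by positivity
    have h10 : 2 * (z : ℝ) * (1 / (L ^ A * L ^ 2)) + z / (L ^ A * L ^ 2) + z * (2 / (L ^ A * L)) =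
        z / L ^ A * (3 / L ^ 2 + 2 / L) := by
      field_simp
      ring
    rw [h10]
    apply mul_le_of_le_one_right (by positivity)
    have h11 : 3 / L ^ 2 ≤ 3 / 16 := by
      apply div_le_div_of_nonneg_left (by norm_num) (by norm_num)
      nlinarith
    have h12 : 2 / L ≤ 2 / 4 := div_le_div_of_nonneg_left (by norm_num) (by norm_num) h1
    linarith
  linarith

end Pool.Agent.V5helper42.FP
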