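import Pool.Agent.V5helper42.FP.B

/-!
# Signed sums over moduli, all residues: the function `g` and the expected number (helper42)
-/

set_option autoImplicit false

namespace Pool.Agent.V5helper42.FP

open Finset Filter Topology Asymptotics
open Pool.Agent.V5helper42.FG

lemma sum_w_div (D : ℕ) : ∑ d ∈ Icc 1 D, w d / (d : ℝ) ≤ 5 := by
  rcases Nat.eq_zero_or_pos D with h | h
  · subst h; simp
  · have e1 : Icc 1 D = insert 1 (Ioc 1 D) := by
      ext n
      simp only [mem_Icc, mem_insert, mem_Ioc]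
      omega
    rw [e1, sum_insert (by simp), w_one]
    have h1 := tail 1 D le_rfl
    rw [Nat.cast_one, Real.sqrt_one] at h1
    norm_num at h1 ⊢
    linarith

lemma GD_le (a D : ℕ) : GD a D ≤ 5 := by
  unfold GD
  exact (sum_le_sum_of_subset_of_nonneg (filter_subset _ _) fun d _ _ =>
    div_nonneg (w_nonneg d) (Nat.cast_nonneg _)).trans (sum_w_div D)

lemma GD_nonneg (a D : ℕ) : 0 ≤ GD a D := sum_nonneg fun d _ => div_nonneg (w_nonneg d) (Nat.cast_nonneg _)

lemma g_nonneg (a y : ℕ) : 0 ≤ g a y := sum_nonneg fun r _ => by positivity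

lemma g_le (a y : ℕ) : g a y ≤ 5 * y := by
  rw [g_eq]
  have h1 : ∑ d ∈ (Icc 1 y).filter (fun d => d.Coprime a), w d * (vc a (y / d) : ℝ) ≤
      ∑ d ∈ (Icc 1 y).filter (fun d => d.Coprime a), y * (w d / (d : ℝ)) := by
    apply sum_le_sum
    intro d _
    have h2 : (vc a (y / d) : ℝ) ≤ (y : ℝ) / d := by
      have : (vc a (y / d) : ℝ) ≤ ((y / d : ℕ) : ℝ) := by exact_mod_cast vc_le a _
      exact this.trans Nat.cast_div_le
    calc w d * (vc a (y / d) : ℝ) ≤ w d * ((y : ℝ) / d) := mul_le_mul_of_nonneg_left h2 (w_nonneg d)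
      _ = _ := by ring
  refine h1.trans ?_
  rw [← mul_sum]
  have h2 := GD_le a y
  unfold GD at h2
  have := mul_le_mul_of_nonneg_left h2 (Nat.cast_nonneg (α := ℝ) y)
  linarith

lemma rho01 (a : ℕ) : 0 ≤ rho a ∧ rho a ≤ 1 := prod01 _ fun _ hp => Nat.prime_of_mem_primeFactors hp

/-- the function `g`, large argument -/
lemma g_large (a y D : ℕ) (ε : ℝ) (hε : 0 ≤ ε) (hD : 1 ≤ D) (hDy : D ≤ y)
    (h : ∀ z : ℕ, (D : ℝ) ≤ z → |(vc a z : ℝ) - rho a * z| ≤ ε * z) (hy : D * (D + 1) ≤ y) :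
    |g a y - rho a * GD a D * y| ≤ 5 * ε * y + (1 + Real.log D) ^ 2 + 4 / Real.sqrt D * y := by
  obtain ⟨hρ0, hρ1⟩ := rho01 a
  have hy0 : (0 : ℝ) ≤ y := Nat.cast_nonneg y
  have hsplit : (Icc 1 y).filter (fun d => d.Coprime a) =
      (Icc 1 D).filter (fun d => d.Coprime a) ∪ (Ioc D y).filter (fun d => d.Coprime a) := by
    rw [← filter_union]
    congr 1
    ext n
    simp only [mem_Icc, mem_union, mem_Ioc]
    omega
  have hdisj : Disjoint ((Icc 1 D).filter (fun d => d.Coprime a)) ((Ioc D y).filter (fun d => d.Coprime a)) := by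
    rw [disjoint_left]
    intro n hn hn2
    rw [mem_filter, mem_Icc] at hn
    rw [mem_filter, mem_Ioc] at hn2
    omega
  rw [g_eq, hsplit, sum_union hdisj]
  have hGD : rho a * GD a D * y = ∑ d ∈ (Icc 1 D).filter (fun d => d.Coprime a), w d * (rho a * (y / d)) := by
    unfold GD
    rw [mul_sum, sum_mul]
    exact sum_congr rfl fun d _ => by ring
  have h1 : |∑ d ∈ (Icc 1 D).filter (fun d => d.Coprime a), w d * (vc a (y / d) : ℝ) - rho a * GD a D * y| ≤
      5 * ε * y + (1 + Real.log D) ^ 2 := by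
    rw [hGD, ← sum_sub_distrib]
    refine (abs_sum_le_sum_abs _ _).trans ?_
    have h2 : ∀ d ∈ (Icc 1 D).filter (fun d => d.Coprime a),
        |w d * (vc a (y / d) : ℝ) - w d * (rho a * (y / d))| ≤ ε * y * (w d / d) + w d := by
      intro d hd
      rw [mem_filter, mem_Icc] at hd
      have hd0 : (0 : ℝ) < d := by exact_mod_cast hd.1.1
      have hlow : D ≤ y / d := by
        rw [Nat.le_div_iff_mul_le (by omega)]
        calc D * d ≤ D * (D + 1) := Nat.mul_le_mul_left D (by omega)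
          _ ≤ y := hy
      have h3 := h (y / d) (by exact_mod_cast hlow)
      have h4 : ((y / d : ℕ) : ℝ) ≤ (y : ℝ) / d := Nat.cast_div_le
      have h5 : (y : ℝ) / d - 1 ≤ ((y / d : ℕ) : ℝ) := by
        have h6 : y < (y / d + 1) * d := (Nat.div_lt_iff_lt_mul (by omega)).1 (Nat.lt_succ_self _)
        have h7 : (y : ℝ) / d < ((y / d : ℕ) : ℝ) + 1 := by
          rw [div_lt_iff₀ hd0]
          exact_mod_cast h6
        linarith
      rw [← mul_sub, abs_mul, abs_of_nonneg (w_nonneg d)]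
      have h6 : |(vc a (y / d) : ℝ) - rho a * (y / d)| ≤ ε * (y / d) + 1 := by
        obtain ⟨a1, a2⟩ := abs_le.1 h3
        have a3 := mul_le_mul_of_nonneg_left h4 hε
        have a4 := mul_le_mul_of_nonneg_left h4 hρ0
        have a5 := mul_le_mul_of_nonneg_left h5 hρ0
        rw [mul_sub, mul_one] at a5
        rw [abs_le]
        constructor <;> linarith
      calc w d * |(vc a (y / d) : ℝ) - rho a * (y / d)| ≤ w d * (ε * (y / d) + 1) :=
            mul_le_mul_of_nonneg_left h6 (w_nonneg d)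
        _ = _ := by ring
    refine (sum_le_sum h2).trans ?_
    rw [sum_add_distrib, ← mul_sum]
    have h3 : ∑ d ∈ (Icc 1 D).filter (fun d => d.Coprime a), w d / (d : ℝ) ≤ 5 := GD_le a D
    have h4 : ∑ d ∈ (Icc 1 D).filter (fun d => d.Coprime a), w d ≤ (1 + Real.log D) ^ 2 :=
      (sum_le_sum_of_subset_of_nonneg (filter_subset _ _) fun d _ _ => w_nonneg d).trans (sum_w D)
    have h5 := mul_le_mul_of_nonneg_left h3 (mul_nonneg hε hy0)
    linarith
  have h2 : |∑ d ∈ (Ioc D y).filter (fun d => d.Coprime a), w d * (vc a (y / d) : ℝ)| ≤ 4 / Real.sqrt D * y := by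
    rw [abs_of_nonneg (sum_nonneg fun d _ => mul_nonneg (w_nonneg d) (Nat.cast_nonneg _))]
    have h3 : ∑ d ∈ (Ioc D y).filter (fun d => d.Coprime a), w d * (vc a (y / d) : ℝ) ≤
        ∑ d ∈ Ioc D y, y * (w d / (d : ℝ)) := by
      refine le_trans (sum_le_sum fun d _ => ?_) (sum_le_sum_of_subset_of_nonneg
        (filter_subset _ _) fun d _ _ => mul_nonneg hy0 (div_nonneg (w_nonneg d) (Nat.cast_nonneg _)))
      have a1 : (vc a (y / d) : ℝ) ≤ (y : ℝ) / d := by
        have : (vc a (y / d) : ℝ) ≤ ((y / d : ℕ) : ℝ) := by exact_mod_cast vc_le a _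
        exact this.trans Nat.cast_div_le
      calc w d * (vc a (y / d) : ℝ) ≤ w d * ((y : ℝ) / d) := mul_le_mul_of_nonneg_left a1 (w_nonneg d)
        _ = _ := by ring
    refine h3.trans ?_
    rw [← mul_sum]
    have := mul_le_mul_of_nonneg_left (tail D y hD) hy0
    linarith
  have e1 : ∀ A B C : ℝ, A + B - C = (A - C) + B := fun A B C => by ring
  rw [e1]
  refine (abs_add_le _ _).trans ?_
  linarith

/-- the function `g`, all arguments -/
lemma g_all (a D : ℕ) (ε ε' : ℝ) (hε : 0 ≤ ε) (hD : 1 ≤ D)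
    (h : ∀ z : ℕ, (D : ℝ) ≤ z → |(vc a z : ℝ) - rho a * z| ≤ ε * z)
    (hε' : 5 * ε + (1 + Real.log D) ^ 2 / D + 4 / Real.sqrt D ≤ ε') (y : ℕ) :
    |g a y - rho a * GD a D * y| ≤ ε' * y + 20 * (D : ℝ) ^ 2 := by
  have hD0 : (0 : ℝ) < D := by exact_mod_cast hD
  obtain ⟨hρ0, hρ1⟩ := rho01 a
  have hy0 : (0 : ℝ) ≤ y := Nat.cast_nonneg y
  have hlog : 0 ≤ (1 + Real.log D) ^ 2 / D := by positivity
  have hs : 0 ≤ 4 / Real.sqrt D := by positivity
  have hε'0 : 0 ≤ ε' := by linarith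
  rcases Nat.lt_or_ge y (D * (D + 1)) with hy | hy
  · have h1 := g_nonneg a y
    have h2 := g_le a y
    have h3 : 0 ≤ rho a * GD a D * y := mul_nonneg (mul_nonneg hρ0 (GD_nonneg a D)) hy0
    have h4 : rho a * GD a D * y ≤ 5 * y := by
      apply mul_le_mul_of_nonneg_right _ hy0
      calc rho a * GD a D ≤ 1 * 5 := mul_le_mul hρ1 (GD_le a D) (GD_nonneg a D) zero_le_one
        _ = 5 := by norm_num
    have h5 : (y : ℝ) ≤ 2 * (D : ℝ) ^ 2 := by
      have h6 : (y : ℝ) < D * (D + 1) := by exact_mod_cast hy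
      have h7 : (1 : ℝ) ≤ D := by exact_mod_cast hD
      nlinarith
    have h6 : 0 ≤ ε' * y := mul_nonneg hε'0 hy0
    rw [abs_le]
    constructor <;> nlinarith [sq_nonneg (D : ℝ)]
  · have hDy : D ≤ y := by
      have : D * 1 ≤ D * (D + 1) := Nat.mul_le_mul_left D (by omega)
      omega
    refine (g_large a y D ε hε hD hDy h hy).trans ?_
    have h1 : (1 + Real.log D) ^ 2 ≤ (1 + Real.log D) ^ 2 / D * y := by
      have hyD : (D : ℝ) ≤ y := by exact_mod_cast hDy
      rw [div_mul_eq_mul_div, le_div_iff₀ hD0]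
      exact mul_le_mul_of_nonneg_left hyD (sq_nonneg _)
    have h2 := mul_le_mul_of_nonneg_right hε' hy0
    have h3 : 0 ≤ 20 * (D : ℝ) ^ 2 := by positivity
    linarith

/-- `∑ 1 / q` over the moduli -/
noncomputable def HH (u v : ℕ) : ℝ := ∑ q ∈ Ioc u v, 1 / (q : ℝ)

lemma HH_nonneg (u v : ℕ) : 0 ≤ HH u v := sum_nonneg fun q _ => by positivity

/-- the expected number, by partial summation -/
lemma expect (a u : ℕ) (κ ε : ℝ) (hu : 1 ≤ u) (h : ∀ q : ℕ, u ≤ q → |g a q - κ * q| ≤ ε * q) (v : ℕ) (huv : u ≤ v) :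
    |∑ q ∈ (Ioc u v).filter (fun q => q.Coprime a), 1 / (q.totient : ℝ) - κ * HH u v - (g a v - κ * v) / v| ≤
      ε * (1 + HH u v) := by
  induction v, huv using Nat.le_induction with
  | base =>
    unfold HH
    rw [Ioc_self, filter_empty, sum_empty, sum_empty, mul_zero, sub_zero, zero_sub, abs_neg, add_zero, mul_one]
    have hu0 : (0 : ℝ) < u := by exact_mod_cast hu
    rw [abs_div, abs_of_pos hu0, div_le_iff₀ hu0]
    exact h u le_rfl
  | succ v huv ih =>
    have hv0 : (0 : ℝ) < v := by exact_mod_cast (by omega : 0 < v)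
    have hv1 : (0 : ℝ) < ((v + 1 : ℕ) : ℝ) := by positivity
    have e0 : Ioc u (v + 1) = insert (v + 1) (Ioc u v) := by
      ext n
      simp only [mem_Ioc, mem_insert]
      omega
    have eH : HH u (v + 1) = HH u v + 1 / ((v + 1 : ℕ) : ℝ) := by
      unfold HH
      rw [e0, sum_insert (by simp)]
      ring
    have eg : g a (v + 1) = g a v + if (v + 1).Coprime a then ((v + 1 : ℕ) : ℝ) / ((v + 1).totient : ℝ) else 0 := by
      unfold g
      have e1 : Icc 1 (v + 1) = insert (v + 1) (Icc 1 v) := by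
        ext n
        simp only [mem_Icc, mem_insert]
        omega
      rw [e1, filter_insert]
      split_ifs with hc
      · rw [sum_insert (by simp)]
        ring
      · rw [add_zero]
    have eS : ∑ q ∈ (Ioc u (v + 1)).filter (fun q => q.Coprime a), 1 / (q.totient : ℝ) =
        ∑ q ∈ (Ioc u v).filter (fun q => q.Coprime a), 1 / (q.totient : ℝ) +
          (g a (v + 1) - g a v) / ((v + 1 : ℕ) : ℝ) := by
      rw [eg, e0, filter_insert]
      split_ifs with hc
      · rw [sum_insert (by simp)]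
        have h2 : ((v + 1).totient : ℝ) ≠ 0 := by
          have := Nat.totient_pos.2 (by omega : 0 < v + 1)
          exact_mod_cast this.ne'
        have h3 : (g a v + ((v + 1 : ℕ) : ℝ) / ((v + 1).totient : ℝ) - g a v) / ((v + 1 : ℕ) : ℝ) = 1 / ((v + 1).totient : ℝ) := by
          field_simp
          ring
        rw [h3]
        ring
      · simp
    rw [eS, eH]
    have key : ∑ q ∈ (Ioc u v).filter (fun q => q.Coprime a), 1 / (q.totient : ℝ) +
          (g a (v + 1) - g a v) / ((v + 1 : ℕ) : ℝ) - κ * (HH u v + 1 / ((v + 1 : ℕ) : ℝ)) -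
          (g a (v + 1) - κ * ((v + 1 : ℕ) : ℝ)) / ((v + 1 : ℕ) : ℝ) =
        (∑ q ∈ (Ioc u v).filter (fun q => q.Coprime a), 1 / (q.totient : ℝ) - κ * HH u v - (g a v - κ * v) / v) +
          (g a v - κ * v) * (1 / v - 1 / ((v + 1 : ℕ) : ℝ)) := by
      push_cast
      field_simp
      ring
    rw [key]
    refine (abs_add_le _ _).trans ?_
    have h1 : |(g a v - κ * v) * (1 / v - 1 / ((v + 1 : ℕ) : ℝ))| ≤ ε * (1 / ((v + 1 : ℕ) : ℝ)) := by
      rw [abs_mul]
      have h2 : (1 / (v : ℝ) - 1 / ((v + 1 : ℕ) : ℝ)) = 1 / (v * ((v + 1 : ℕ) : ℝ)) := by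
        push_cast
        field_simp
        ring
      rw [h2, abs_of_nonneg (by positivity : 0 ≤ 1 / ((v : ℝ) * ((v + 1 : ℕ) : ℝ)))]
      calc |g a v - κ * v| * (1 / ((v : ℝ) * ((v + 1 : ℕ) : ℝ))) ≤ (ε * v) * (1 / ((v : ℝ) * ((v + 1 : ℕ) : ℝ))) :=
            mul_le_mul_of_nonneg_right (h v huv) (by positivity)
        _ = _ := by field_simp
    calc _ ≤ ε * (1 + HH u v) + ε * (1 / ((v + 1 : ℕ) : ℝ)) := add_le_add ih h1
      _ = _ := by ring

/-- the expected number -/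
lemma expect' (a u v : ℕ) (κ ε : ℝ) (hu : 1 ≤ u) (huv : u ≤ v) (h : ∀ q : ℕ, u ≤ q → |g a q - κ * q| ≤ ε * q) :
    |∑ q ∈ (Ioc u v).filter (fun q => q.Coprime a), 1 / (q.totient : ℝ) - κ * HH u v| ≤ ε * (2 + HH u v) := by
  have h1 := expect a u κ ε hu h v huv
  have hv0 : (0 : ℝ) < v := by exact_mod_cast (by omega : 0 < v)
  have h2 : |(g a v - κ * v) / v| ≤ ε := by
    rw [abs_div, abs_of_pos hv0, div_le_iff₀ hv0]
    exact h v huv
  obtain ⟨a1, a2⟩ := abs_le.1 h1
  obtain ⟨b1, b2⟩ := abs_le.1 h2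
  rw [abs_le]
  constructor <;> linarith

/-- the sum of the values of `g` -/
lemma sum_g (a u v t : ℕ) (κ ε B : ℝ) (hκ0 : 0 ≤ κ) (hκ : κ ≤ 5) (hε : 0 ≤ ε) (hu : 1 ≤ u)
    (h : ∀ y : ℕ, |g a y - κ * y| ≤ ε * y + B) :
    |∑ q ∈ Ioc u v, g a (t / q) - κ * t * HH u v| ≤ ε * t * HH u v + (B + 5) * v := by
  unfold HH
  rw [mul_sum, mul_sum, ← sum_sub_distrib]
  refine (abs_sum_le_sum_abs _ _).trans ?_
  have hB : 0 ≤ B := by
    have := h 0
    simp only [Nat.cast_zero, mul_zero, sub_zero, zero_add] at this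
    exact (abs_nonneg _).trans this
  have h1 : ∀ q ∈ Ioc u v, |g a (t / q) - κ * t * (1 / (q : ℝ))| ≤ ε * t * (1 / (q : ℝ)) + (B + 5) := by
    intro q hq
    rw [mem_Ioc] at hq
    have hq0 : (0 : ℝ) < q := by exact_mod_cast (by omega : 0 < q)
    have h4 : ((t / q : ℕ) : ℝ) ≤ (t : ℝ) / q := Nat.cast_div_le
    have h5 : (t : ℝ) / q - 1 ≤ ((t / q : ℕ) : ℝ) := by
      have h6 : t < (t / q + 1) * q := (Nat.div_lt_iff_lt_mul (by omega)).1 (Nat.lt_succ_self _)
      have h7 : (t : ℝ) / q < ((t / q : ℕ) : ℝ) + 1 := by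
        rw [div_lt_iff₀ hq0]
        exact_mod_cast h6
      linarith
    obtain ⟨a1, a2⟩ := abs_le.1 (h (t / q))
    have a3 := mul_le_mul_of_nonneg_left h4 hε
    have a4 := mul_le_mul_of_nonneg_left h4 hκ0
    have a5 := mul_le_mul_of_nonneg_left h5 hκ0
    rw [mul_sub, mul_one] at a5
    have e1 : κ * t * (1 / (q : ℝ)) = κ * (t / q) := by ring
    have e2 : ε * t * (1 / (q : ℝ)) = ε * (t / q) := by ring
    rw [e1, e2, abs_le]
    constructor <;> linarith
  refine (sum_le_sum h1).trans ?_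
  rw [sum_add_distrib, sum_const, Nat.card_Ioc, nsmul_eq_mul]
  have h2 : ((v - u : ℕ) : ℝ) ≤ v := by exact_mod_cast Nat.sub_le v u
  have h3 := mul_le_mul_of_nonneg_right h2 (by linarith : 0 ≤ B + 5)
  linarith

end Pool.Agent.V5helper42.FP
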