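import Pool.Agent.V5helper42.FP.C
import Pool.Agent.V5helper42.FG.K2

/-!
# Signed sums over moduli, all residues: the sums over the primes with logarithmic weights (helper42)
-/

set_option autoImplicit false

namespace Pool.Agent.V5helper42.FP

open Finset Filter Topology Asymptotics
open Pool.Agent.V5helper42.FG
open Pool.Agent.N718.DC (lam)

/-- the primes in a class, through the quotients -/
lemma th_split (t q a R : ℕ) (ha : 1 ≤ a) (hq : a < q) (hR : t < a + q * (R + 1)) :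
    ∑ r ∈ (Icc 1 R).filter (fun r => a + q * r ≤ t ∧ (a + q * r).Prime), Real.log ((a + q * r : ℕ) : ℝ) ≤ th t q a ∧
      th t q a ≤ ∑ r ∈ (Icc 1 R).filter (fun r => a + q * r ≤ t ∧ (a + q * r).Prime), Real.log ((a + q * r : ℕ) : ℝ) +
        Real.log a := by
  classical
  have hloga : 0 ≤ Real.log (a : ℝ) := Real.log_natCast_nonneg a
  have h1 : th t q a = ∑ p ∈ ((Icc 1 t).filter (fun p => p.Prime ∧ p ≡ a [MOD q])).filter (fun p => p = a), Real.log (p : ℝ) +
      ∑ p ∈ ((Icc 1 t).filter (fun p => p.Prime ∧ p ≡ a [MOD q])).filter (fun p => ¬ p = a), Real.log (p : ℝ) := by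
    unfold th
    rw [sum_filter_add_sum_filter_not]
  have h2 : ∑ p ∈ ((Icc 1 t).filter (fun p => p.Prime ∧ p ≡ a [MOD q])).filter (fun p => ¬ p = a), Real.log (p : ℝ) =
      ∑ r ∈ (Icc 1 R).filter (fun r => a + q * r ≤ t ∧ (a + q * r).Prime), Real.log ((a + q * r : ℕ) : ℝ) := by
    symm
    refine sum_bij (fun r _ => a + q * r) ?_ ?_ ?_ ?_
    · intro r hr
      rw [mem_filter, mem_Icc] at hr
      rw [mem_filter, mem_filter, mem_Icc]
      refine ⟨⟨⟨hr.2.2.pos, hr.2.1⟩, hr.2.2, ?_⟩, ?_⟩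
      · unfold Nat.ModEq
        rw [Nat.add_mul_mod_self_left]
      · have : 0 < q * r := Nat.mul_pos (by omega) (by omega)
        omega
    · intro r _ r' _ h
      have h1 : q * r = q * r' := by simpa using h
      exact Nat.eq_of_mul_eq_mul_left (by omega) h1
    · intro p hp
      rw [mem_filter, mem_filter, mem_Icc] at hp
      obtain ⟨⟨⟨hp1, hpx⟩, hpp, hpc⟩, hpa⟩ := hp
      have hmod : p % q = a := by
        have : p % q = a % q := hpc
        rw [this, Nat.mod_eq_of_lt hq]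
      have hdec := Nat.div_add_mod p q
      rw [hmod] at hdec
      have hr1 : 1 ≤ p / q := by
        by_contra h
        have h0 : p / q = 0 := Nat.lt_one_iff.1 (not_le.1 h)
        rw [h0] at hdec
        have : p = a := by omega
        exact hpa this
      refine ⟨p / q, ?_, by rw [add_comm]; exact hdec⟩
      rw [mem_filter, mem_Icc]
      have e : a + q * (p / q) = p := by omega
      rw [e]
      refine ⟨⟨hr1, ?_⟩, hpx, hpp⟩
      by_contra h
      have h2 : R + 1 ≤ p / q := by omega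
      have h3 := Nat.mul_le_mul_left q h2
      omega
    · intro r _
      rfl
  have h3 : 0 ≤ ∑ p ∈ ((Icc 1 t).filter (fun p => p.Prime ∧ p ≡ a [MOD q])).filter (fun p => p = a), Real.log (p : ℝ) :=
    sum_nonneg fun p _ => Real.log_natCast_nonneg p
  have h4 : ∑ p ∈ ((Icc 1 t).filter (fun p => p.Prime ∧ p ≡ a [MOD q])).filter (fun p => p = a), Real.log (p : ℝ) ≤
      Real.log (a : ℝ) := by
    calc _ ≤ ∑ p ∈ ({a} : Finset ℕ), Real.log (p : ℝ) := by
          apply sum_le_sum_of_subset_of_nonneg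
          · intro p hp
            rw [mem_filter] at hp
            rw [mem_singleton]
            exact hp.2
          · intro p _ _
            exact Real.log_natCast_nonneg p
      _ = _ := sum_singleton _ _
  rw [h2] at h1
  constructor <;> linarith

/-- a prime `a + q r` is coprime to everything -/
lemma cop_of_prime (a q r : ℕ) (ha : 1 ≤ a) (hq : 1 ≤ q) (hr : 1 ≤ r) (h : (a + q * r).Prime) : q.Coprime a := by
  by_contra hc
  have hg : Nat.gcd q a ∣ a + q * r :=
    (Nat.dvd_add (Nat.gcd_dvd_right _ _) ((Nat.gcd_dvd_left q a).mul_right r))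
  rcases (Nat.dvd_prime h).1 hg with h1 | h1
  · exact hc h1
  · have h2 := Nat.le_of_dvd ha (Nat.gcd_dvd_right q a)
    have h3 : 0 < q * r := Nat.mul_pos hq hr
    omega

/-- the sums over the moduli, through the rows -/
lemma t1_rows (t a u v R : ℕ) (ha : 1 ≤ a) (hau : a ≤ u) (hR : t < a + u * (R + 1)) :
    |∑ q ∈ (Ioc u v).filter (fun q => q.Coprime a), th t q a -
      ∑ r ∈ (Icc 1 R).filter (fun r => r.Coprime a),
        ∑ n ∈ (Ioc ((a + u * r : ℕ) : ℤ) ((min (a + v * r) t : ℕ) : ℤ)).filter (fun n => (r : ℤ) ∣ n - a), lam n| ≤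
      v * Real.log a := by
  classical
  have hloga : 0 ≤ Real.log (a : ℝ) := Real.log_natCast_nonneg a
  have h1 : ∑ r ∈ (Icc 1 R).filter (fun r => r.Coprime a),
        ∑ n ∈ (Ioc ((a + u * r : ℕ) : ℤ) ((min (a + v * r) t : ℕ) : ℤ)).filter (fun n => (r : ℤ) ∣ n - a), lam n =
      ∑ q ∈ (Ioc u v).filter (fun q => q.Coprime a),
        ∑ r ∈ (Icc 1 R).filter (fun r => a + q * r ≤ t ∧ (a + q * r).Prime), Real.log ((a + q * r : ℕ) : ℝ) := by
    have e1 : ∀ r ∈ (Icc 1 R).filter (fun r => r.Coprime a),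
        ∑ n ∈ (Ioc ((a + u * r : ℕ) : ℤ) ((min (a + v * r) t : ℕ) : ℤ)).filter (fun n => (r : ℤ) ∣ n - a), lam n =
          ∑ q ∈ Ioc u v, if (a + q * r ≤ t ∧ (a + q * r).Prime) then Real.log ((a + q * r : ℕ) : ℝ) else 0 := by
      intro r hr
      rw [mem_filter, mem_Icc] at hr
      rw [lam_row t a u v r (by omega), sum_filter]
    rw [sum_congr rfl e1]
    have e2 : ∑ r ∈ (Icc 1 R).filter (fun r => r.Coprime a),
        ∑ q ∈ Ioc u v, (if (a + q * r ≤ t ∧ (a + q * r).Prime) then Real.log ((a + q * r : ℕ) : ℝ) else 0) =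
        ∑ r ∈ Icc 1 R,
        ∑ q ∈ Ioc u v, (if (a + q * r ≤ t ∧ (a + q * r).Prime) then Real.log ((a + q * r : ℕ) : ℝ) else 0) := by
      apply sum_subset (filter_subset _ _)
      intro r hr hr2
      rw [mem_Icc] at hr
      apply sum_eq_zero
      intro q hq
      rw [mem_Ioc] at hq
      rw [if_neg]
      rintro ⟨_, hp⟩
      apply hr2
      rw [mem_filter, mem_Icc]
      refine ⟨hr, cop_of_prime a r q ha (by omega) (by omega) ?_⟩
      rw [mul_comm]
      exact hp
    rw [e2, sum_comm]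
    symm
    simp_rw [sum_filter]
    refine sum_congr rfl fun q hq => ?_
    rw [mem_Ioc] at hq
    split_ifs with hc
    · rfl
    · symm
      apply sum_eq_zero
      intro r hr
      rw [mem_Icc] at hr
      rw [if_neg]
      rintro ⟨_, hp⟩
      exact hc (cop_of_prime a q r ha (by omega) (by omega) hp)
  rw [h1, ← sum_sub_distrib]
  refine (abs_sum_le_sum_abs _ _).trans ?_
  have h2 : ∀ q ∈ (Ioc u v).filter (fun q => q.Coprime a),
      |th t q a - ∑ r ∈ (Icc 1 R).filter (fun r => a + q * r ≤ t ∧ (a + q * r).Prime), Real.log ((a + q * r : ℕ) : ℝ)| ≤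
        Real.log a := by
    intro q hq
    rw [mem_filter, mem_Ioc] at hq
    have h3 := th_split t q a R ha (by omega) (by
      have := Nat.mul_le_mul_right (R + 1) hq.1.1.le
      omega)
    rw [abs_le]
    constructor <;> linarith [h3.1, h3.2]
  refine (sum_le_card_nsmul _ _ _ h2).trans ?_
  rw [nsmul_eq_mul]
  apply mul_le_mul_of_nonneg_right _ hloga
  have h3 : ((Ioc u v).filter (fun q => q.Coprime a)).card ≤ v := by
    refine (card_filter_le _ _).trans ?_
    rw [Nat.card_Ioc]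
    omega
  exact_mod_cast h3

/-- the lengths of the rows -/
lemma rows_len (t a u v R : ℕ) (hR : t < a + u * (R + 1)) :
    |∑ r ∈ (Icc 1 R).filter (fun r => r.Coprime a), (len t a u v r : ℝ) / (r.totient : ℝ) -
      ∑ q ∈ Ioc u v, g a ((t - a) / q)| ≤ (R : ℝ) ^ 2 := by
  have hm := sum_mr t a u v R hR
  have hm2 : ∑ q ∈ Ioc u v, (if a ≤ t then g a ((t - a) / q) else 0) = ∑ q ∈ Ioc u v, g a ((t - a) / q) := by
    refine sum_congr rfl fun q _ => ?_
    split_ifs with h
    · rfl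
    · have h0 : t - a = 0 := by omega
      rw [h0, Nat.zero_div]
      unfold g
      simp
  rw [hm2] at hm
  rw [← hm, ← sum_sub_distrib]
  refine (abs_sum_le_sum_abs _ _).trans ?_
  have h2 : ∀ r ∈ (Icc 1 R).filter (fun r => r.Coprime a),
      |(len t a u v r : ℝ) / (r.totient : ℝ) - (r : ℝ) / (r.totient : ℝ) * (mr t a u v r : ℝ)| ≤ R := by
    intro r hr
    rw [mem_filter, mem_Icc] at hr
    have hr0 : 0 < r := by omega
    have a2 := len_bounds t a u v r hr0
    have hφ : (0 : ℝ) < r.totient := by exact_mod_cast Nat.totient_pos.2 hr0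
    have a3 : (r : ℝ) * (mr t a u v r : ℝ) ≤ len t a u v r := by exact_mod_cast a2.1
    have a4 : (len t a u v r : ℝ) ≤ (r : ℝ) * (mr t a u v r : ℝ) + r := by exact_mod_cast a2.2
    have a5 : (r : ℝ) / (r.totient : ℝ) * (mr t a u v r : ℝ) ≤ (len t a u v r : ℝ) / (r.totient : ℝ) := by
      rw [div_mul_eq_mul_div]
      exact div_le_div_of_nonneg_right a3 hφ.le
    have a6 : (len t a u v r : ℝ) / (r.totient : ℝ) ≤ (r : ℝ) / (r.totient : ℝ) * (mr t a u v r : ℝ) + R := by
      have b1 : (len t a u v r : ℝ) / (r.totient : ℝ) ≤ ((r : ℝ) * (mr t a u v r : ℝ) + r) / (r.totient : ℝ) :=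
        div_le_div_of_nonneg_right a4 hφ.le
      rw [add_div] at b1
      have b2 := ratio_le r hr0
      have b3 : (r : ℝ) ≤ R := by exact_mod_cast hr.1.2
      rw [div_mul_eq_mul_div]
      linarith
    rw [abs_le]
    have : (0 : ℝ) ≤ R := Nat.cast_nonneg _
    constructor <;> linarith
  refine (sum_le_card_nsmul _ _ _ h2).trans ?_
  rw [nsmul_eq_mul, sq]
  apply mul_le_mul_of_nonneg_right _ (Nat.cast_nonneg _)
  exact_mod_cast vc_le a R

/-- the sum over the moduli of the weighted numbers of primes -/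
lemma t1_main (x t a u v R : ℕ) (κ ε B E : ℝ) (htx : t ≤ x) (ha : 1 ≤ a) (hau : a ≤ u) (huv : u ≤ v)
    (hR : x < a + u * (R + 1)) (hκ0 : 0 ≤ κ) (hκ : κ ≤ 5) (hε : 0 ≤ ε)
    (hg : ∀ y : ℕ, |g a y - κ * y| ≤ ε * y + B)
    (hBV : ∀ r h : ℕ → ℕ, (∀ m ∈ Icc 1 R, Nat.Coprime (r m) m) → (∀ m, h m ≤ x) →
      ∑ m ∈ Icc 1 R, |∑ p ∈ (Icc 1 (h m)).filter (fun p => p.Prime ∧ p ≡ r m [MOD m]), Real.log p -
        (h m : ℝ) / Nat.totient m| ≤ E) :
    |∑ q ∈ (Ioc u v).filter (fun q => q.Coprime a), th t q a - κ * t * HH u v| ≤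
      v * Real.log a + 2 * E + (R : ℝ) ^ 2 + ε * x * HH u v + (B + 5) * v + 5 * u * HH u v := by
  have hRt : t < a + u * (R + 1) := by omega
  have h1 := t1_rows t a u v R ha hau hRt
  have h2 := rows_bv t a u v R E huv (fun r h hr hh => hBV r h hr (fun m => (hh m).trans htx))
  have h3 := rows_len t a u v R hRt
  have h4 := sum_g a u v (t - a) κ ε B hκ0 hκ hε (by omega) hg
  have h5 : |∑ r ∈ (Icc 1 R).filter (fun r => r.Coprime a),
        ∑ n ∈ (Ioc ((a + u * r : ℕ) : ℤ) ((min (a + v * r) t : ℕ) : ℤ)).filter (fun n => (r : ℤ) ∣ n - a), lam n -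
      ∑ r ∈ (Icc 1 R).filter (fun r => r.Coprime a), (len t a u v r : ℝ) / (r.totient : ℝ)| ≤ 2 * E := by
    rw [← sum_sub_distrib]
    exact (abs_sum_le_sum_abs _ _).trans h2
  have hH := HH_nonneg u v
  have h6 : ((t - a : ℕ) : ℝ) ≤ t := by exact_mod_cast Nat.sub_le t a
  have h7 : (t : ℝ) ≤ ((t - a : ℕ) : ℝ) + a := by
    have : t ≤ (t - a) + a := by omega
    exact_mod_cast this
  have h8 : (a : ℝ) ≤ u := by exact_mod_cast hau
  have h9 : (t : ℝ) ≤ x := by exact_mod_cast htx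
  have b1 : ε * ((t - a : ℕ) : ℝ) * HH u v ≤ ε * x * HH u v :=
    mul_le_mul_of_nonneg_right (mul_le_mul_of_nonneg_left (h6.trans h9) hε) hH
  have b2 : κ * ((t - a : ℕ) : ℝ) * HH u v ≤ κ * t * HH u v :=
    mul_le_mul_of_nonneg_right (mul_le_mul_of_nonneg_left h6 hκ0) hH
  have b3 : κ * t * HH u v ≤ κ * ((t - a : ℕ) : ℝ) * HH u v + 5 * u * HH u v := by
    have c1 : κ * t * HH u v ≤ κ * (((t - a : ℕ) : ℝ) + a) * HH u v :=
      mul_le_mul_of_nonneg_right (mul_le_mul_of_nonneg_left h7 hκ0) hH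
    have c2 : κ * (a : ℝ) * HH u v ≤ 5 * u * HH u v := by
      apply mul_le_mul_of_nonneg_right _ hH
      exact mul_le_mul hκ h8 (Nat.cast_nonneg _) (by norm_num)
    calc κ * t * HH u v ≤ κ * (((t - a : ℕ) : ℝ) + a) * HH u v := c1
      _ = κ * ((t - a : ℕ) : ℝ) * HH u v + κ * (a : ℝ) * HH u v := by ring
      _ ≤ _ := by linarith
  obtain ⟨p1, p2⟩ := abs_le.1 h1
  obtain ⟨q1, q2⟩ := abs_le.1 h3
  obtain ⟨r1, r2⟩ := abs_le.1 h4
  obtain ⟨s1, s2⟩ := abs_le.1 h5
  rw [abs_le]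
  constructor <;> linarith only [p1, p2, q1, q2, r1, r2, s1, s2, b1, b2, b3]

end Pool.Agent.V5helper42.FP
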