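import Pool.Agent.V5helper42.FP.D
import Pool.Agent.V5helper42.FG.E

/-!
# Signed sums over moduli, all residues: partial summation (helper42)
-/

set_option autoImplicit false

namespace Pool.Agent.V5helper42.FP

open Finset Filter Topology Asymptotics
open Pool.Agent.V5helper42.FG

/-- partial summation with the weight `1 / log n` -/
lemma abel_aux (f : ℕ → ℝ) (M : ℝ) (x : ℕ) (hf : ∀ n, n ≤ 1 → f n = 0)
    (hM : ∀ t : ℕ, t ≤ x → |∑ n ∈ Icc 1 t, f n| ≤ M) (N : ℕ) (hN : 2 ≤ N) (hNx : N ≤ x) :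
    |∑ n ∈ Icc 1 N, f n / Real.log n - (∑ n ∈ Icc 1 N, f n) / Real.log N| ≤ M * (1 / Real.log 2 - 1 / Real.log N) := by
  induction N, hN using Nat.le_induction with
  | base =>
    have e1 : (Icc 1 2 : Finset ℕ) = {1, 2} := by decide
    rw [e1, sum_pair (by norm_num), sum_pair (by norm_num), hf 1 le_rfl]
    norm_num
  | succ N hN ih =>
    have ih := ih (by omega)
    have e0 : Icc 1 (N + 1) = insert (N + 1) (Icc 1 N) := by
      ext n
      simp only [mem_Icc, mem_insert]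
      omega
    have hni : N + 1 ∉ Icc 1 N := by simp
    rw [e0, sum_insert hni, sum_insert hni]
    have hl2 : 0 < Real.log (N : ℝ) := Real.log_pos (by exact_mod_cast (by omega : 1 < N))
    have hl3 : Real.log (N : ℝ) ≤ Real.log ((N + 1 : ℕ) : ℝ) :=
      Real.log_le_log (by exact_mod_cast (by omega : 0 < N)) (by exact_mod_cast Nat.le_succ N)
    have hl4 : 0 < Real.log ((N + 1 : ℕ) : ℝ) := lt_of_lt_of_le hl2 hl3
    obtain ⟨S, hS⟩ : ∃ S : ℝ, S = ∑ n ∈ Icc 1 N, f n := ⟨_, rfl⟩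
    obtain ⟨S', hS'⟩ : ∃ S' : ℝ, S' = ∑ n ∈ Icc 1 N, f n / Real.log n := ⟨_, rfl⟩
    have hSM := hM N (by omega)
    rw [← hS] at hSM
    rw [← hS, ← hS'] at ih
    rw [← hS, ← hS']
    have key : f (N + 1) / Real.log ((N + 1 : ℕ) : ℝ) + S' - (f (N + 1) + S) / Real.log ((N + 1 : ℕ) : ℝ) =
        (S' - S / Real.log N) + S * (1 / Real.log N - 1 / Real.log ((N + 1 : ℕ) : ℝ)) := by
      field_simp
      ring
    rw [key]
    refine (abs_add_le _ _).trans ?_
    have h1 : 0 ≤ 1 / Real.log N - 1 / Real.log ((N + 1 : ℕ) : ℝ) := by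
      rw [sub_nonneg]
      exact one_div_le_one_div_of_le hl2 hl3
    rw [abs_mul, abs_of_nonneg h1]
    have h2 := mul_le_mul_of_nonneg_right hSM h1
    have e : M * (1 / Real.log 2 - 1 / Real.log ((N + 1 : ℕ) : ℝ)) =
        M * (1 / Real.log 2 - 1 / Real.log N) + M * (1 / Real.log N - 1 / Real.log ((N + 1 : ℕ) : ℝ)) := by ring
    rw [e]
    exact add_le_add ih h2

lemma abel (f : ℕ → ℝ) (M : ℝ) (x : ℕ) (hf : ∀ n, n ≤ 1 → f n = 0) (hx : 2 ≤ x)
    (hM : ∀ t : ℕ, t ≤ x → |∑ n ∈ Icc 1 t, f n| ≤ M) :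
    |∑ n ∈ Icc 1 x, f n / Real.log n| ≤ 2 * M := by
  have h1 := abel_aux f M x hf hM x hx le_rfl
  have h2 := hM x le_rfl
  have hM0 : 0 ≤ M := (abs_nonneg _).trans h2
  have hlx : 0 < Real.log (x : ℝ) := Real.log_pos (by exact_mod_cast (by omega : 1 < x))
  have h3 : |(∑ n ∈ Icc 1 x, f n) / Real.log x| ≤ M * (1 / Real.log x) := by
    rw [abs_div, abs_of_pos hlx, div_eq_mul_one_div]
    exact mul_le_mul_of_nonneg_right h2 (by positivity)
  have h4 : 1 / Real.log 2 ≤ 2 := by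
    have := Real.log_two_gt_d9
    rw [div_le_iff₀ (by linarith)]
    linarith
  have h5 := mul_le_mul_of_nonneg_left h4 hM0
  obtain ⟨a1, a2⟩ := abs_le.1 h1
  obtain ⟨b1, b2⟩ := abs_le.1 h3
  rw [abs_le]
  constructor <;> linarith only [a1, a2, b1, b2, h5]

lemma swap (F : Finset ℕ) (t a : ℕ) (wt : ℕ → ℝ) :
    ∑ n ∈ (Icc 1 t).filter (fun p => p.Prime), wt n * ((F.filter (fun q => n ≡ a [MOD q])).card : ℝ) =
      ∑ q ∈ F, ∑ p ∈ (Icc 1 t).filter (fun p => p.Prime ∧ p ≡ a [MOD q]), wt p := by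
  classical
  have h1 : ∀ q ∈ F, ∑ p ∈ (Icc 1 t).filter (fun p => p.Prime ∧ p ≡ a [MOD q]), wt p =
      ∑ p ∈ (Icc 1 t).filter (fun p => p.Prime), if p ≡ a [MOD q] then wt p else 0 := by
    intro q _
    rw [← sum_filter, filter_filter]
  rw [sum_congr rfl h1, sum_comm]
  refine sum_congr rfl fun n _ => ?_
  rw [← sum_filter, sum_const, nsmul_eq_mul, mul_comm]

/-- from the weighted sums to the number of primes -/
lemma dev_le (x a u v : ℕ) (M : ℝ) (hx : 2 ≤ x)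
    (hM : ∀ t : ℕ, t ≤ x → |∑ q ∈ (Ioc u v).filter (fun q => q.Coprime a), th t q a -
      (∑ p ∈ (Icc 1 t).filter (fun p => p.Prime), Real.log (p : ℝ)) *
        ∑ q ∈ (Ioc u v).filter (fun q => q.Coprime a), 1 / (q.totient : ℝ)| ≤ M) :
    |dev x a u v| ≤ 2 * M := by
  classical
  obtain ⟨F, hF⟩ : ∃ F : Finset ℕ, F = (Ioc u v).filter (fun q => q.Coprime a) := ⟨_, rfl⟩
  rw [← hF] at hM
  obtain ⟨Φ, hΦ⟩ : ∃ Φ : ℝ, Φ = ∑ q ∈ F, 1 / (q.totient : ℝ) := ⟨_, rfl⟩
  rw [← hΦ] at hM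
  obtain ⟨f, hf⟩ : ∃ f : ℕ → ℝ, f = fun n => if n.Prime then Real.log (n : ℝ) *
    (((F.filter (fun q => n ≡ a [MOD q])).card : ℝ) - Φ) else 0 := ⟨_, rfl⟩
  have hf1 : ∀ n, n ≤ 1 → f n = 0 := by
    intro n hn
    rw [hf]
    dsimp only
    rw [if_neg]
    intro h
    exact absurd h.two_le (by omega)
  have hsum : ∀ t : ℕ, ∑ n ∈ Icc 1 t, f n = ∑ q ∈ F, th t q a -
      (∑ p ∈ (Icc 1 t).filter (fun p => p.Prime), Real.log (p : ℝ)) * Φ := by
    intro t
    rw [hf]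
    dsimp only
    rw [← sum_filter]
    simp_rw [mul_sub]
    rw [sum_sub_distrib, ← sum_mul]
    congr 1
    unfold th
    exact swap F t a (fun n => Real.log (n : ℝ))
  have h1 := abel f M x hf1 hx (fun t ht => by rw [hsum t]; exact hM t ht)
  have h2 : ∑ n ∈ Icc 1 x, f n / Real.log n = dev x a u v := by
    unfold dev
    rw [← hF, sum_sub_distrib]
    have e1 : ∑ q ∈ F, (Nat.primeCounting x : ℝ) / (q.totient : ℝ) = (Nat.primeCounting x : ℝ) * Φ := by
      rw [hΦ, mul_sum]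
      exact sum_congr rfl fun q _ => by ring
    have e2 : (Nat.primeCounting x : ℝ) = ∑ p ∈ (Icc 1 x).filter (fun p => p.Prime), (1 : ℝ) := by
      rw [sum_const, nsmul_eq_mul, mul_one]
      congr 1
      rw [Nat.primeCounting, Nat.primeCounting', Nat.count_eq_card_filter_range]
      congr 1
      ext n
      simp only [mem_filter, mem_range, mem_Icc]
      constructor
      · rintro ⟨h3, h4⟩
        exact ⟨⟨h4.one_le, by omega⟩, h4⟩
      · rintro ⟨⟨h3, h5⟩, h4⟩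
        exact ⟨by omega, h4⟩
    rw [e1, e2, sum_mul]
    have e3 : ∑ n ∈ Icc 1 x, f n / Real.log n =
        ∑ n ∈ (Icc 1 x).filter (fun p => p.Prime), (((F.filter (fun q => n ≡ a [MOD q])).card : ℝ) - Φ) := by
      rw [sum_filter]
      refine sum_congr rfl fun n _ => ?_
      rw [hf]
      dsimp only
      split_ifs with hn
      · have : Real.log (n : ℝ) ≠ 0 := (Real.log_pos (by exact_mod_cast hn.one_lt)).ne'
        field_simp
      · simp
    rw [e3, sum_sub_distrib]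
    simp_rw [one_mul]
    congr 1
    have h3 := swap F x a (fun _ => (1 : ℝ))
    simp only [one_mul, sum_const, nsmul_eq_mul, mul_one] at h3
    rw [h3]
    rfl
  rw [h2] at h1
  exact h1

end Pool.Agent.V5helper42.FP
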