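import Pool.Agent.V5helper42.FP.E

/-!
# Signed sums over moduli, all residues: the parameters (helper42)
-/

set_option autoImplicit false

namespace Pool.Agent.V5helper42.FP

open Finset Filter Topology Asymptotics
open Pool.Agent.V5helper42.FG

lemma HH_le (u v : ℕ) : HH u v ≤ 1 + Real.log v := by
  have h1 : HH u v ≤ ∑ q ∈ Icc 1 v, 1 / (q : ℝ) := by
    unfold HH
    apply sum_le_sum_of_subset_of_nonneg
    · intro q hq
      rw [mem_Ioc] at hq
      rw [mem_Icc]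
      omega
    · intro q _ _
      positivity
  have h2 : ∑ q ∈ Icc 1 v, 1 / (q : ℝ) = ((harmonic v : ℚ) : ℝ) := by
    rw [harmonic_eq_sum_Icc]
    push_cast
    exact sum_congr rfl fun q _ => one_div _
  rw [h2] at h1
  exact h1.trans (harmonic_le_one_add_log v)

/-- the bound with explicit parameters -/
lemma core (x a u v R D : ℕ) (ε ε' E L : ℝ) (hx : 2 ≤ x) (hL : L = Real.log x) (hL1 : 1 ≤ L) (ha : 1 ≤ a) (hau : a ≤ u)
    (huv : u ≤ v) (hvx : v ≤ x) (hR1 : 1 ≤ R) (hR : x < a + u * (R + 1)) (hD : 1 ≤ D) (hε : 0 ≤ ε) (hε1 : ε' ≤ 1 / 2)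
    (hvc : ∀ z : ℕ, (D : ℝ) ≤ z → |(vc a z : ℝ) - rho a * z| ≤ ε * z)
    (hε' : 5 * ε + (1 + Real.log D) ^ 2 / D + 4 / Real.sqrt D ≤ ε') (hDu : 20 * (D : ℝ) ^ 2 ≤ ε' * u)
    (hBV : ∀ r h : ℕ → ℕ, (∀ m ∈ Icc 1 R, Nat.Coprime (r m) m) → (∀ m, h m ≤ x) →
      ∑ m ∈ Icc 1 R, |∑ p ∈ (Icc 1 (h m)).filter (fun p => p.Prime ∧ p ≡ r m [MOD m]), Real.log p -
        (h m : ℝ) / Nat.totient m| ≤ E) :
    |dev x a u v| ≤ 2 * (v * (20 * (D : ℝ) ^ 2 + 5 + 11 * L) + (R : ℝ) ^ 2 + E * (16 * L) + 10 * (ε' * x * L)) := by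
  apply dev_le x a u v _ hx
  intro t ht
  obtain ⟨κ, hκ⟩ : ∃ κ : ℝ, κ = rho a * GD a D := ⟨_, rfl⟩
  have hκ0 : 0 ≤ κ := by rw [hκ]; exact mul_nonneg (rho01 a).1 (GD_nonneg a D)
  have hκ5 : κ ≤ 5 := by
    rw [hκ]
    calc rho a * GD a D ≤ 1 * 5 := mul_le_mul (rho01 a).2 (GD_le a D) (GD_nonneg a D) zero_le_one
      _ = 5 := by norm_num
  have hε'0 : 0 ≤ ε' := by
    have h1 : 0 ≤ (1 + Real.log D) ^ 2 / D := by positivity
    have h2 : 0 ≤ 4 / Real.sqrt D := by positivity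
    linarith
  have hg : ∀ y : ℕ, |g a y - κ * y| ≤ ε' * y + 20 * (D : ℝ) ^ 2 := by
    intro y
    rw [hκ]
    exact g_all a D ε ε' hε hD hvc hε' y
  have h1 := t1_main x t a u v R κ ε' (20 * (D : ℝ) ^ 2) E ht ha hau huv hR hκ0 hκ5 hε'0 hg hBV
  -- the prime number theorem
  have hE0 : 0 ≤ E := le_trans (sum_nonneg fun _ _ => abs_nonneg _) (hBV (fun _ => 1) (fun _ => t) (fun m _ => Nat.coprime_one_left m) (fun _ => ht))
  obtain ⟨θ, hθ⟩ : ∃ θ : ℝ, θ = ∑ p ∈ (Icc 1 t).filter (fun p => p.Prime), Real.log (p : ℝ) := ⟨_, rfl⟩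
  have hθt : |θ - t| ≤ E := by
    have h2 := hBV (fun _ => 1) (fun _ => t) (fun m _ => Nat.coprime_one_left m) (fun _ => ht)
    refine le_trans ?_ h2
    have h3 := single_le_sum (s := Icc 1 R) (f := fun m => |∑ p ∈ (Icc 1 t).filter (fun p => p.Prime ∧ p ≡ 1 [MOD m]), Real.log (p : ℝ) -
        (t : ℝ) / Nat.totient m|) (fun _ _ => abs_nonneg _) (mem_Icc.2 ⟨le_rfl, hR1⟩)
    refine le_trans (le_of_eq ?_) h3
    rw [hθ, Nat.totient_one, Nat.cast_one, div_one]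
    congr 3
    ext p
    simp [Nat.modEq_one]
  rw [← hθ]
  -- the expected number
  have hu1 : 1 ≤ u := by omega
  have hgq : ∀ q : ℕ, u ≤ q → |g a q - κ * q| ≤ (2 * ε') * q := by
    intro q hq
    have h2 := hg q
    have h3 : (u : ℝ) ≤ q := by exact_mod_cast hq
    have h4 := mul_le_mul_of_nonneg_left h3 hε'0
    linarith
  have h2 := expect' a u v κ (2 * ε') hu1 huv hgq
  obtain ⟨Φ, hΦ⟩ : ∃ Φ : ℝ, Φ = ∑ q ∈ (Ioc u v).filter (fun q => q.Coprime a), 1 / (q.totient : ℝ) := ⟨_, rfl⟩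
  rw [← hΦ] at h2 ⊢
  obtain ⟨T1, hT1⟩ : ∃ T1 : ℝ, T1 = ∑ q ∈ (Ioc u v).filter (fun q => q.Coprime a), th t q a := ⟨_, rfl⟩
  rw [← hT1] at h1 ⊢
  have hH0 := HH_nonneg u v
  have hv0 : (0 : ℝ) < v := by exact_mod_cast (by omega : 0 < v)
  have hx0 : (0 : ℝ) < x := by exact_mod_cast (by omega : 0 < x)
  have hH1 : HH u v ≤ 2 * L := by
    have h3 := HH_le u v
    have h4 : Real.log (v : ℝ) ≤ L := by
      rw [hL]
      exact Real.log_le_log hv0 (by exact_mod_cast hvx)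
    linarith
  obtain ⟨H, hH⟩ : ∃ H : ℝ, H = HH u v := ⟨_, rfl⟩
  rw [← hH] at h1 h2 hH0 hH1
  have hlogaL : Real.log (a : ℝ) ≤ L := by
    rw [hL]
    exact Real.log_le_log (by exact_mod_cast ha) (by exact_mod_cast (by omega : a ≤ x))
  have hΦ0 : 0 ≤ Φ := by
    rw [hΦ]
    exact sum_nonneg fun q _ => by positivity
  have hΦ1 : Φ ≤ 14 * L := by
    have h3 := (abs_le.1 h2).2
    have h4 : κ * H ≤ 5 * H := mul_le_mul_of_nonneg_right hκ5 hH0
    have h5 : 2 * ε' * (2 + H) ≤ 1 * (2 + H) := mul_le_mul_of_nonneg_right (by linarith) (by linarith)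
    linarith
  have htx : (t : ℝ) ≤ x := by exact_mod_cast ht
  have ht0 : (0 : ℝ) ≤ t := Nat.cast_nonneg t
  have huvR : (u : ℝ) ≤ v := by exact_mod_cast huv
  have h3 : |θ * Φ - κ * t * H| ≤ E * (14 * L) + x * (2 * ε' * (2 + 2 * L)) := by
    have e : θ * Φ - κ * t * H = (θ - t) * Φ + t * (Φ - κ * H) := by ring
    rw [e]
    refine (abs_add_le _ _).trans ?_
    rw [abs_mul, abs_mul, abs_of_nonneg hΦ0, abs_of_nonneg ht0]
    have h4 : |θ - t| * Φ ≤ E * (14 * L) := mul_le_mul hθt hΦ1 hΦ0 hE0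
    have h5 : t * |Φ - κ * H| ≤ x * (2 * ε' * (2 + 2 * L)) := by
      refine mul_le_mul htx (h2.trans ?_) (abs_nonneg _) hx0.le
      exact mul_le_mul_of_nonneg_left (by linarith) (by linarith)
    linarith
  have b1 : v * Real.log (a : ℝ) ≤ v * L := mul_le_mul_of_nonneg_left hlogaL hv0.le
  have b2 : ε' * x * H ≤ ε' * x * (2 * L) := mul_le_mul_of_nonneg_left hH1 (by positivity)
  have b3 : 5 * u * H ≤ 5 * v * (2 * L) := mul_le_mul (by linarith) hH1 hH0 (by positivity)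
  have b4 : E ≤ E * L := le_mul_of_one_le_right hE0 hL1
  have b5 : ε' * x ≤ ε' * x * L := le_mul_of_one_le_right (by positivity) hL1
  obtain ⟨a1, a2⟩ := abs_le.1 h1
  obtain ⟨c1, c2⟩ := abs_le.1 h3
  rw [abs_le]
  constructor <;> nlinarith only [a1, a2, c1, c2, b1, b2, b3, b4, b5]

/-- `exp (c (log L)² / log log L)` exceeds every power of `L` -/
lemma Z_large (c : ℝ) (hc : 0 < c) (N : ℕ) (C : ℝ) :
    ∀ᶠ L : ℝ in atTop, C * L ^ N ≤ Real.exp (c * (Real.log L ^ 2 / Real.log (Real.log L))) := by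
  have h1 : Tendsto (fun L : ℝ => Real.log L) atTop atTop := Real.tendsto_log_atTop
  have h2 : ∀ᶠ m : ℝ in atTop, Real.log m ≤ c / (N + 1) * m := by
    have h := Real.isLittleO_log_id_atTop.bound (by positivity : (0 : ℝ) < c / (N + 1))
    filter_upwards [h, eventually_ge_atTop 1] with m hm hm1
    rw [Real.norm_eq_abs, Real.norm_eq_abs, id, abs_of_nonneg (Real.log_nonneg hm1), abs_of_nonneg (by linarith)] at hm
    exact hm
  filter_upwards [h1.eventually h2, h1.eventually (eventually_gt_atTop 1), eventually_ge_atTop C, eventually_ge_atTop 1] with L g1 g2 g3 g4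
  have hm0 : 0 < Real.log (Real.log L) := Real.log_pos g2
  have hL0 : 0 < L := by linarith
  have h3 : ((N : ℝ) + 1) * Real.log L ≤ c * (Real.log L ^ 2 / Real.log (Real.log L)) := by
    rw [mul_div_assoc', le_div_iff₀ hm0]
    have h4 : ((N : ℝ) + 1) * Real.log (Real.log L) ≤ c * Real.log L := by
      have := mul_le_mul_of_nonneg_left g1 (by positivity : (0 : ℝ) ≤ (N : ℝ) + 1)
      have e : ((N : ℝ) + 1) * (c / (N + 1) * Real.log L) = c * Real.log L := by field_simp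
      linarith
    have h5 := mul_le_mul_of_nonneg_left h4 (by linarith : 0 ≤ Real.log L)
    nlinarith only [h5]
  calc C * L ^ N ≤ L * L ^ N := mul_le_mul_of_nonneg_right g3 (by positivity)
    _ = L ^ (N + 1) := by ring
    _ = Real.exp (((N : ℝ) + 1) * Real.log L) := by
        have : ((N : ℝ) + 1) * Real.log L = ((N + 1 : ℕ) : ℝ) * Real.log L := by push_cast; ring
        rw [this, Real.exp_nat_mul, Real.exp_log hL0]
    _ ≤ _ := Real.exp_le_exp.2 h3

/-- `(log L)² / log log L` is small -/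
lemma Z_small (c : ℝ) (hc : 0 < c) : ∀ᶠ L : ℝ in atTop, c * (Real.log L ^ 2 / Real.log (Real.log L)) ≤ L := by
  have h := (isLittleO_log_rpow_atTop (by norm_num : (0:ℝ) < 1 / 2)).bound (by positivity : (0 : ℝ) < Real.sqrt (1 / c))
  have h1 : Tendsto (fun L : ℝ => Real.log L) atTop atTop := Real.tendsto_log_atTop
  have h2 : Tendsto (fun L : ℝ => Real.log (Real.log L)) atTop atTop := Real.tendsto_log_atTop.comp Real.tendsto_log_atTop
  filter_upwards [h, h2.eventually (eventually_ge_atTop 1), eventually_ge_atTop 1, h1.eventually (eventually_ge_atTop 0)] with L g1 g2 g3 g4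
  rw [Real.norm_eq_abs, Real.norm_eq_abs, abs_of_nonneg g4, abs_of_nonneg (Real.rpow_nonneg (by linarith) _)] at g1
  have h3 : Real.log L ^ 2 ≤ 1 / c * L := by
    calc Real.log L ^ 2 ≤ (Real.sqrt (1 / c) * L ^ (1 / 2 : ℝ)) ^ 2 := pow_le_pow_left₀ g4 g1 2
      _ = 1 / c * L := by
          rw [mul_pow, Real.sq_sqrt (by positivity), ← Real.rpow_natCast, ← Real.rpow_mul (by linarith)]
          norm_num
  have h4 : Real.log L ^ 2 / Real.log (Real.log L) ≤ 1 / c * L :=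
    (div_le_self (sq_nonneg _) g2).trans h3
  have h5 := mul_le_mul_of_nonneg_left h4 hc.le
  have e : c * (1 / c * L) = L := by field_simp
  linarith

end Pool.Agent.V5helper42.FP
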