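import Pool.Agent.V5helper42.FP.I4
import Pool.Agent.N403.QL.BVH

/-!
# Signed sums over moduli, all integers: the theorem (helper42)
-/

set_option autoImplicit false

namespace Pool.Agent.V5helper42.FP

open Finset Filter Topology Asymptotics
open Pool.Agent.V5helper42.FG

/-- numerical conditions -/
structure Num (A : ℕ) (D0 L : ℝ) : Prop where
  n1 : 20 ≤ L
  n2 : 400 * L ^ (A + 2) ≤ Real.exp (D0 * (Real.log L ^ 2 / Real.log (Real.log L)))
  n3 : 256 * L ^ (2 * A + 6) ≤ Real.exp (D0 * (Real.log L ^ 2 / Real.log (Real.log L)))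
  n4 : 16 * L ^ (A + 5) ≤ Real.exp (D0 * (Real.log L ^ 2 / Real.log (Real.log L)))
  n5 : 6 * D0 * (Real.log L ^ 2 / Real.log (Real.log L)) ≤ L
  n6 : 80 * L ^ (A + 3) ≤ Real.exp (D0 * (Real.log L ^ 2 / Real.log (Real.log L)))

lemma num_ev (A : ℕ) (D0 : ℝ) (hD0 : 0 < D0) : ∀ᶠ L : ℝ in atTop, Num A D0 L := by
  filter_upwards [eventually_ge_atTop 20, Z_large D0 hD0 (A + 2) 400, Z_large D0 hD0 (2 * A + 6) 256,
    Z_large D0 hD0 (A + 5) 16, Z_small (6 * D0) (by positivity), Z_large D0 hD0 (A + 3) 80] with L h1 h2 h3 h4 h5 h6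
  exact ⟨h1, h2, h3, h4, h5, h6⟩

lemma eps_bound (A : ℕ) (L Z : ℝ) (D : ℕ) (hL : 20 ≤ L) (hZD : Z ≤ D) (hDL : Real.log D ≤ L) (hD1 : 1 ≤ D)
    (n3 : 256 * L ^ (2 * A + 6) ≤ Z) (n4 : 16 * L ^ (A + 5) ≤ Z) :
    5 * (1 / L ^ (A + 4)) + (1 + Real.log D) ^ 2 / D + 4 / Real.sqrt D ≤ 1 / L ^ (A + 3) := by
  have hL0 : 0 < L := by linarith
  have hP : 0 < L ^ (A + 3) := by positivity
  have hD0 : (0 : ℝ) < D := by exact_mod_cast hD1
  have hlD : 0 ≤ Real.log (D : ℝ) := Real.log_natCast_nonneg D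
  have h1 : 5 * (1 / L ^ (A + 4)) ≤ 1 / 4 * (1 / L ^ (A + 3)) := by
    rw [pow_succ L (A + 3)]
    have : 1 / (L ^ (A + 3) * L) = 1 / L ^ (A + 3) * (1 / L) := by field_simp
    rw [this]
    have h2 : 5 * (1 / L) ≤ 1 / 4 := by
      rw [mul_one_div, div_le_iff₀ hL0]
      linarith
    calc 5 * (1 / L ^ (A + 3) * (1 / L)) = (5 * (1 / L)) * (1 / L ^ (A + 3)) := by ring
      _ ≤ 1 / 4 * (1 / L ^ (A + 3)) := mul_le_mul_of_nonneg_right h2 (by positivity)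
  have h2 : (1 + Real.log D) ^ 2 / D ≤ 1 / 4 * (1 / L ^ (A + 3)) := by
    have h3 : (1 + Real.log D) ^ 2 ≤ (2 * L) ^ 2 := pow_le_pow_left₀ (by linarith) (by linarith) 2
    rw [div_le_iff₀ hD0]
    have h4 : 16 * L ^ (A + 5) ≤ D := n4.trans hZD
    have h5 : 1 / 4 * (1 / L ^ (A + 3)) * (16 * L ^ (A + 5)) = (2 * L) ^ 2 := by
      have : L ^ (A + 5) = L ^ (A + 3) * L ^ 2 := by ring
      rw [this]
      field_simp
      ring
    have h6 := mul_le_mul_of_nonneg_left h4 (by positivity : 0 ≤ 1 / 4 * (1 / L ^ (A + 3)))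
    linarith
  have h3 : 4 / Real.sqrt D ≤ 1 / 4 * (1 / L ^ (A + 3)) := by
    have h4 : 16 * L ^ (A + 3) ≤ Real.sqrt D := by
      apply Real.le_sqrt_of_sq_le
      refine le_trans (le_of_eq ?_) (n3.trans hZD)
      ring
    have hs : 0 < Real.sqrt D := Real.sqrt_pos.2 hD0
    rw [div_le_iff₀ hs]
    have h6 := mul_le_mul_of_nonneg_left h4 (by positivity : 0 ≤ 1 / 4 * (1 / L ^ (A + 3)))
    have h5 : 1 / 4 * (1 / L ^ (A + 3)) * (16 * L ^ (A + 3)) = 4 := by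
      field_simp
      norm_num
    linarith
  have h0 : 0 < 1 / L ^ (A + 3) := by positivity
  linarith

/-- the conclusion from the explicit bound -/
lemma final_bound (A : ℕ) (L x v R D Z : ℝ) (hL : 20 ≤ L) (hx : 0 < x) (hv : 0 ≤ v) (hR : 0 ≤ R) (hR1 : R ≤ R ^ 2) (hD : 0 ≤ D)
    (hDZ : D ≤ 2 * Z) (hZ1 : 1 ≤ Z) (hvZ : v * Z ^ 3 ≤ x) (hRx : R ^ 2 * L ^ (A + 4) ≤ 4 * x)
    (n2 : 400 * L ^ (A + 2) ≤ Z) (n6 : 80 * L ^ (A + 3) ≤ Z) (hZx : Z ≤ x) :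
    2 * ((v + R) * L + 80 * (D ^ 2 * v) + 20 * v + 2 * R ^ 2 + 18 * (x / L ^ (A + 3) * L) +
      20 * (1 / L ^ (A + 3) * x * L) + 10 * L) ≤ x / L ^ A := by
  have hL0 : 0 < L := by linarith
  have hP : 0 < L ^ (A + 2) := by positivity
  obtain ⟨Y, hY⟩ : ∃ Y : ℝ, Y = x / L ^ (A + 2) := ⟨_, rfl⟩
  have hY0 : 0 < Y := by rw [hY]; positivity
  have e1 : x / L ^ A = L ^ 2 * Y := by
    rw [hY, pow_add]
    field_simp
  have e2 : x / L ^ (A + 3) * L = Y := by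
    rw [hY, pow_succ L (A + 2)]
    field_simp
  have e3 : 1 / L ^ (A + 3) * x * L = Y := by
    rw [hY, pow_succ L (A + 2)]
    field_simp
  have eY : Y * L ^ (A + 2) = x := by
    rw [hY]
    field_simp
  -- the terms with `v`
  have h1 : v * L + 80 * (D ^ 2 * v) + 20 * v ≤ Y := by
    have hLZ : L ≤ Z := by
      have : L ≤ 400 * L ^ (A + 2) := by
        have h3 : L ^ 1 ≤ L ^ (A + 2) := pow_le_pow_right₀ (by linarith) (by omega)
        rw [pow_one] at h3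
        linarith
      linarith
    have hZZ : Z ≤ Z ^ 2 := by nlinarith
    have hD2 : D ^ 2 ≤ (2 * Z) ^ 2 := pow_le_pow_left₀ hD hDZ 2
    have h3 : v * L + 80 * (D ^ 2 * v) + 20 * v ≤ v * (400 * Z ^ 2) := by
      have h4 : L + 80 * D ^ 2 + 20 ≤ 400 * Z ^ 2 := by nlinarith
      have := mul_le_mul_of_nonneg_left h4 hv
      nlinarith only [this]
    have h4 : v * (400 * Z ^ 2) * L ^ (A + 2) ≤ Y * L ^ (A + 2) := by
      rw [eY]
      calc v * (400 * Z ^ 2) * L ^ (A + 2) = v * Z ^ 2 * (400 * L ^ (A + 2)) := by ring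
        _ ≤ v * Z ^ 2 * Z := mul_le_mul_of_nonneg_left n2 (by positivity)
        _ = v * Z ^ 3 := by ring
        _ ≤ x := hvZ
    exact h3.trans (le_of_mul_le_mul_right h4 hP)
  have h2 : R ^ 2 * L ≤ Y := by
    have h3 : R ^ 2 * L * L ^ (A + 2) ≤ Y * L ^ (A + 2) := by
      rw [eY]
      have h4 : R ^ 2 * L * L ^ (A + 2) * L ≤ 4 * x := by
        calc R ^ 2 * L * L ^ (A + 2) * L = R ^ 2 * L ^ (A + 4) := by ring
          _ ≤ 4 * x := hRx
      nlinarith [mul_nonneg (sq_nonneg R) (mul_nonneg hL0.le hP.le)]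
    exact le_of_mul_le_mul_right h3 hP
  have h3 : R * L ≤ Y := (mul_le_mul_of_nonneg_right hR1 hL0.le).trans h2
  have h4 : 2 * R ^ 2 ≤ Y := by nlinarith [sq_nonneg R]
  have h5 : 10 * L ≤ Y := by
    have h6 : 10 * L * L ^ (A + 2) ≤ Y * L ^ (A + 2) := by
      rw [eY]
      have : 80 * L ^ (A + 3) = 8 * (10 * L * L ^ (A + 2)) := by ring
      have h7 : 0 ≤ 10 * L * L ^ (A + 2) := by positivity
      linarith
    exact le_of_mul_le_mul_right h6 hP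
  rw [e1, e2, e3]
  have h6 : 400 * Y ≤ L ^ 2 * Y := mul_le_mul_of_nonneg_right (by nlinarith) hY0.le
  nlinarith only [h1, h2, h3, h4, h5, h6, hY0]

/-- the theorem -/
theorem main (A : ℕ) : ∃ C : ℝ, 0 < C ∧ ∃ K : ℕ, ∀ᶠ x : ℕ in atTop, ∀ (a : ℤ) (u v : ℕ), a ≠ 0 → |a| ≤ x → u ≤ v →
    Real.sqrt x * Real.log x ^ K ≤ u →
    (v : ℝ) ≤ x * Real.exp (-(C * (Real.log (Real.log x) ^ 2 / Real.log (Real.log (Real.log x))))) →
    |devz x u v a| ≤ x / Real.log x ^ A := by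
  obtain ⟨D0, hD0, hun⟩ := unif (A + 4)
  obtain ⟨K0, X0, hBV⟩ := Pool.Agent.N403.QL.t_BVH (A + 3)
  refine ⟨3 * D0, by positivity, K0 + A + 3, ?_⟩
  have hlogN : Tendsto (fun x : ℕ => Real.log (x : ℝ)) atTop atTop :=
    Real.tendsto_log_atTop.comp tendsto_natCast_atTop_atTop
  filter_upwards [hun, eventually_ge_atTop X0, hlogN.eventually (num_ev A D0 hD0), eventually_ge_atTop 2] with x hx hxX hN hx2
  intro a u v ha hax huv hu hv
  obtain ⟨L, hL⟩ : ∃ L : ℝ, L = Real.log x := ⟨_, rfl⟩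
  rw [← hL] at hN hu hv ⊢
  obtain ⟨n1, n2, n3, n4, n5, n6⟩ := hN
  obtain ⟨Z, hZ⟩ : ∃ Z : ℝ, Z = Real.exp (D0 * (Real.log L ^ 2 / Real.log (Real.log L))) := ⟨_, rfl⟩
  rw [← hZ] at n2 n3 n4 n6
  have hL0 : 0 < L := by linarith
  have hx0 : (0 : ℝ) < x := by exact_mod_cast (by omega : 0 < x)
  have hxe : (x : ℝ) = Real.exp L := by rw [hL, Real.exp_log hx0]
  have hZ1 : 1 ≤ Z := by
    have : 1 ≤ L ^ (A + 2) := one_le_pow₀ (by linarith)
    linarith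
  have hZ0 : 0 < Z := by linarith
  have hZ6 : Z ^ 6 ≤ x := by
    rw [hZ, hxe, ← Real.exp_nat_mul]
    apply Real.exp_le_exp.2
    push_cast
    linarith
  have hvZ : (v : ℝ) * Z ^ 3 ≤ x := by
    have e : Real.exp (-(3 * D0 * (Real.log L ^ 2 / Real.log (Real.log L)))) * Z ^ 3 = 1 := by
      rw [hZ, ← Real.exp_nat_mul, ← Real.exp_add]
      push_cast
      rw [show -(3 * D0 * (Real.log L ^ 2 / Real.log (Real.log L))) + 3 * (D0 * (Real.log L ^ 2 / Real.log (Real.log L))) = 0 by ring,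
        Real.exp_zero]
    calc (v : ℝ) * Z ^ 3 ≤ x * Real.exp (-(3 * D0 * (Real.log L ^ 2 / Real.log (Real.log L)))) * Z ^ 3 :=
          mul_le_mul_of_nonneg_right hv (by positivity)
      _ = x := by rw [mul_assoc, e, mul_one]
  have hvx : v ≤ x := by
    have h1 : (v : ℝ) * 1 ≤ v * Z ^ 3 := mul_le_mul_of_nonneg_left (one_le_pow₀ hZ1) (Nat.cast_nonneg _)
    have : (v : ℝ) ≤ x := by linarith
    exact_mod_cast this
  have hsx : 0 < Real.sqrt x := Real.sqrt_pos.2 hx0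
  have hsu : Real.sqrt x ≤ u := by
    have : Real.sqrt x * 1 ≤ Real.sqrt x * L ^ (K0 + A + 3) := mul_le_mul_of_nonneg_left (one_le_pow₀ (by linarith)) hsx.le
    linarith
  have hu1 : 1 ≤ u := by
    have : (0 : ℝ) < u := by linarith
    exact_mod_cast this
  have hu0 : (0 : ℝ) < u := by exact_mod_cast hu1
  obtain ⟨D, hD⟩ : ∃ D : ℕ, D = ⌈Z⌉₊ := ⟨_, rfl⟩
  have hDZ1 : Z ≤ D := by rw [hD]; exact Nat.le_ceil _
  have hDZ2 : (D : ℝ) ≤ 2 * Z := by
    have := Nat.ceil_lt_add_one hZ0.le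
    rw [← hD] at this
    linarith
  have hD1 : 1 ≤ D := by
    have : (1 : ℝ) ≤ D := by linarith
    exact_mod_cast this
  have hDR0 : (0 : ℝ) < D := by exact_mod_cast hD1
  have hDL : Real.log D ≤ L := by
    rw [Real.log_le_iff_le_exp hDR0, ← hxe]
    have h1 : 2 * Z ≤ Z ^ 6 := by
      have h2 : 2 ≤ Z := by
        have : 1 ≤ L ^ (A + 2) := one_le_pow₀ (by linarith)
        linarith
      calc 2 * Z ≤ Z * Z := mul_le_mul_of_nonneg_right h2 hZ0.le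
        _ = Z ^ 2 := by ring
        _ ≤ Z ^ 6 := pow_le_pow_right₀ hZ1 (by norm_num)
    linarith
  -- the number of rows
  obtain ⟨R, hR⟩ : ∃ R : ℕ, R = (x + x) / u := ⟨_, rfl⟩
  have hRlt : x + x < u * (R + 1) := by
    rw [hR, mul_comm]
    exact (Nat.div_lt_iff_lt_mul hu1).1 (Nat.lt_succ_self _)
  have hR1 : 1 ≤ R := by
    rw [hR, Nat.le_div_iff_mul_le hu1]
    omega
  have hRu : (R : ℝ) * u ≤ 2 * x := by
    have : R * u ≤ x + x := by rw [hR]; exact Nat.div_mul_le_self _ _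
    have h2 : ((R * u : ℕ) : ℝ) ≤ ((x + x : ℕ) : ℝ) := by exact_mod_cast this
    push_cast at h2
    linarith
  have hR0 : (0 : ℝ) ≤ R := Nat.cast_nonneg _
  have hRR : (R : ℝ) * L ^ (K0 + A + 3) ≤ 2 * Real.sqrt x := by
    have h1 : (R : ℝ) * (Real.sqrt x * L ^ (K0 + A + 3)) ≤ 2 * x := (mul_le_mul_of_nonneg_left hu hR0).trans hRu
    have h2 : Real.sqrt x * Real.sqrt x = x := Real.mul_self_sqrt hx0.le
    have h3 : (R : ℝ) * L ^ (K0 + A + 3) * Real.sqrt x ≤ 2 * Real.sqrt x * Real.sqrt x := by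
      rw [mul_assoc 2, h2]
      linarith
    exact le_of_mul_le_mul_right h3 hsx
  have hRR2 : (R : ℝ) ^ 2 * L ^ (2 * (K0 + A + 3)) ≤ 4 * x := by
    have h1 := pow_le_pow_left₀ (by positivity) hRR 2
    rw [mul_pow, mul_pow, Real.sq_sqrt hx0.le, ← pow_mul] at h1
    rw [mul_comm 2 (K0 + A + 3)]
    linarith
  have hRA : (R : ℝ) ^ 2 * L ^ (A + 4) ≤ 4 * x := by
    refine le_trans ?_ hRR2
    exact mul_le_mul_of_nonneg_left (pow_le_pow_right₀ (by linarith) (by omega)) (sq_nonneg _)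
  have hRK : (R : ℝ) ^ 2 * Real.log x ^ K0 ≤ x := by
    rw [← hL]
    have h1 : (R : ℝ) ^ 2 * L ^ (K0 + 1) ≤ 4 * x := by
      refine le_trans ?_ hRR2
      exact mul_le_mul_of_nonneg_left (pow_le_pow_right₀ (by linarith) (by omega)) (sq_nonneg _)
    rw [pow_succ L K0, ← mul_assoc] at h1
    have h2 : 0 ≤ (R : ℝ) ^ 2 * L ^ K0 := by positivity
    obtain ⟨W, hW⟩ : ∃ W : ℝ, W = (R : ℝ) ^ 2 * L ^ K0 := ⟨_, rfl⟩
    rw [← hW] at h1 h2 ⊢
    have h3 : W * 20 ≤ W * L := mul_le_mul_of_nonneg_left n1 h2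
    linarith only [h1, h2, h3, hx0]
  have hR12 : (R : ℝ) ≤ (R : ℝ) ^ 2 := by
    have : (1 : ℝ) ≤ R := by exact_mod_cast hR1
    nlinarith
  have haN : a.natAbs ≤ x := by
    have h1 : (a.natAbs : ℤ) = |a| := Int.natCast_natAbs a
    have h2 : (a.natAbs : ℤ) ≤ x := by rw [h1]; exact hax
    exact_mod_cast h2
  have hεu : 20 * (D : ℝ) ^ 2 ≤ 1 / L ^ (A + 3) * u := by
    rw [one_div, inv_mul_eq_div, le_div_iff₀ (by positivity)]
    have h1 : (D : ℝ) ^ 2 ≤ (2 * Z) ^ 2 := pow_le_pow_left₀ hDR0.le hDZ2 2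
    have h2 : Z ^ 3 ≤ Real.sqrt x := by
      apply Real.le_sqrt_of_sq_le
      have e : (Z ^ 3) ^ 2 = Z ^ 6 := by ring
      rw [e]
      exact hZ6
    calc 20 * (D : ℝ) ^ 2 * L ^ (A + 3) ≤ 20 * (2 * Z) ^ 2 * L ^ (A + 3) := by gcongr
      _ = Z ^ 2 * (80 * L ^ (A + 3)) := by ring
      _ ≤ Z ^ 2 * Z := mul_le_mul_of_nonneg_left n6 (by positivity)
      _ = Z ^ 3 := by ring
      _ ≤ u := h2.trans hsu
  have hc := corez x u v R D a (1 / L ^ (A + 4)) (1 / L ^ (A + 3)) (x / L ^ (A + 3)) L hx2 hL (by linarith) ha haN hu1 huv hvx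
    hR1 hRlt hD1 (by positivity) (by
      rw [div_le_iff₀ (by positivity)]
      have : 1 ≤ L ^ (A + 2) := one_le_pow₀ (by linarith)
      rw [pow_succ]
      nlinarith) (by
      intro z hz
      have h1 := hx a.natAbs (Int.natAbs_pos.2 ha) haN z (by
        rw [← hL, ← mul_div_assoc] at *
        rw [← hZ] at *
        linarith)
      rw [← hL] at h1
      refine h1.trans (le_of_eq ?_)
      ring) (eps_bound A L Z D n1 hDZ1 hDL hD1 n3 n4) hεu (by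
      have h1 := hBV x hxX R hRK
      rw [← hL] at h1
      exact h1)
  refine hc.trans ?_
  exact final_bound A L x v R D Z n1 hx0 (Nat.cast_nonneg _) hR0 hR12 hDR0.le hDZ2 hZ1 hvZ hRA n2 n6 (by
    calc Z = Z ^ 1 := (pow_one _).symm
      _ ≤ Z ^ 6 := pow_le_pow_right₀ hZ1 (by norm_num)
      _ ≤ x := hZ6)

end Pool.Agent.V5helper42.FP
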