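import Pool.Agent.V5helper42.FP.F

/-!
# Signed sums over moduli, all integers: switching to the complementary divisor (helper42)
-/

set_option autoImplicit false

namespace Pool.Agent.V5helper42.FP

open Finset Filter Topology Asymptotics
open Pool.Agent.V5helper42.FG

/-- `θ` in a residue class, integer residue -/
noncomputable def thz (t q : ℕ) (a : ℤ) : ℝ :=
  ∑ p ∈ (Icc 1 t).filter (fun p : ℕ => p.Prime ∧ (q : ℤ) ∣ (p : ℤ) - a), Real.log (p : ℝ)

/-- number of the moduli dividing `p - a` -/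
def n1 (F : Finset ℕ) (a : ℤ) (p : ℕ) : ℕ := (F.filter (fun q : ℕ => (q : ℤ) ∣ (p : ℤ) - a)).card

/-- number of the complementary divisors -/
def n2 (S : Finset ℕ) (u v : ℕ) (a : ℤ) (p : ℕ) : ℕ :=
  (S.filter (fun s : ℕ => (s : ℤ) ∣ (p : ℤ) - a ∧ u * s < ((p : ℤ) - a).natAbs ∧ ((p : ℤ) - a).natAbs ≤ v * s)).card

lemma cop_aux (a : ℤ) (p m : ℕ) (hp : p.Prime) (hpb : ¬ p ∣ a.natAbs) (hm : m ∣ ((p : ℤ) - a).natAbs) :
    m.Coprime a.natAbs := by
  have h1 : ((Nat.gcd m a.natAbs : ℕ) : ℤ) ∣ (p : ℤ) - a :=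
    Int.natCast_dvd.2 ((Nat.gcd_dvd_left m _).trans hm)
  have h2 : ((Nat.gcd m a.natAbs : ℕ) : ℤ) ∣ a := Int.natCast_dvd.2 (Nat.gcd_dvd_right m _)
  have h3 : ((Nat.gcd m a.natAbs : ℕ) : ℤ) ∣ (p : ℤ) := by
    have := dvd_add h1 h2
    rwa [sub_add_cancel] at this
  have h4 : Nat.gcd m a.natAbs ∣ p := Int.natCast_dvd_natCast.1 h3
  rcases (Nat.dvd_prime hp).1 h4 with h5 | h5
  · exact h5
  · exact absurd (h5 ▸ Nat.gcd_dvd_right m a.natAbs) hpb

lemma n12 (a : ℤ) (p u v R : ℕ) (hp : p.Prime) (hpb : ¬ p ∣ a.natAbs)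
    (hR : ((p : ℤ) - a).natAbs < u * (R + 1)) :
    n1 ((Ioc u v).filter (fun q => q.Coprime a.natAbs)) a p =
      n2 ((Icc 1 R).filter (fun s => s.Coprime a.natAbs)) u v a p := by
  classical
  obtain ⟨d, hd⟩ : ∃ d : ℕ, d = ((p : ℤ) - a).natAbs := ⟨_, rfl⟩
  have hd0 : d ≠ 0 := by
    intro h
    rw [hd, Int.natAbs_eq_zero, sub_eq_zero] at h
    apply hpb
    rw [← h, Int.natAbs_natCast]
  unfold n1 n2
  rw [← hd] at hR ⊢
  have hdv : ∀ m : ℕ, (m : ℤ) ∣ (p : ℤ) - a ↔ m ∣ d := by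
    intro m
    rw [hd]
    exact Int.natCast_dvd
  refine card_bij' (fun q _ => d / q) (fun s _ => d / s) ?_ ?_ ?_ ?_
  · intro q hq
    rw [mem_filter, mem_filter, mem_Ioc, hdv] at hq
    obtain ⟨⟨⟨h1, h2⟩, _⟩, h3⟩ := hq
    have e : d / q * q = d := Nat.div_mul_cancel h3
    have hs0 : 0 < d / q := by
      rcases Nat.eq_zero_or_pos (d / q) with h | h
      · rw [h, zero_mul] at e
        exact absurd e.symm hd0
      · exact h
    have hsd : d / q ∣ d := Dvd.intro q e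
    rw [mem_filter, mem_filter, mem_Icc, hdv]
    refine ⟨⟨⟨hs0, ?_⟩, cop_aux a p _ hp hpb (hd ▸ hsd)⟩, hsd, ?_, ?_⟩
    · by_contra h
      have h4 : R + 1 ≤ d / q := by omega
      have h5 : u * (R + 1) ≤ q * (d / q) := Nat.mul_le_mul h1.le h4
      rw [mul_comm q] at h5
      omega
    · have := Nat.mul_lt_mul_of_pos_right h1 hs0
      rw [mul_comm q] at this
      omega
    · have := Nat.mul_le_mul_right (d / q) h2
      rw [mul_comm q] at this
      omega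
  · intro s hs
    rw [mem_filter, mem_filter, mem_Icc, hdv] at hs
    obtain ⟨⟨⟨h1, h2⟩, _⟩, h3, h4, h5⟩ := hs
    have e : d / s * s = d := Nat.div_mul_cancel h3
    have hsd : d / s ∣ d := Dvd.intro s e
    rw [mem_filter, mem_filter, mem_Ioc, hdv]
    refine ⟨⟨⟨?_, ?_⟩, cop_aux a p _ hp hpb (hd ▸ hsd)⟩, hsd⟩
    · by_contra h
      have := Nat.mul_le_mul_right s (not_lt.1 h)
      omega
    · by_contra h
      have h7 : v + 1 ≤ d / s := by omega
      have := Nat.mul_le_mul_right s h7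
      have h6 : (v + 1) * s = v * s + s := by ring
      rw [h6, e] at this
      omega
  · intro q hq
    rw [mem_filter, mem_filter, mem_Ioc, hdv] at hq
    exact Nat.div_div_self hq.2 hd0
  · intro s hs
    rw [mem_filter, mem_filter, mem_Icc, hdv] at hs
    exact Nat.div_div_self hs.2.1 hd0

lemma swapr (F : Finset ℕ) (t : ℕ) (wt : ℕ → ℝ) (rel : ℕ → ℕ → Prop) [DecidableRel rel] :
    ∑ q ∈ F, ∑ p ∈ (Icc 1 t).filter (fun p => p.Prime ∧ rel q p), wt p =
      ∑ n ∈ (Icc 1 t).filter (fun p => p.Prime), wt n * ((F.filter (fun q => rel q n)).card : ℝ) := by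
  have h1 : ∀ q ∈ F, ∑ p ∈ (Icc 1 t).filter (fun p => p.Prime ∧ rel q p), wt p =
      ∑ p ∈ (Icc 1 t).filter (fun p => p.Prime), if rel q p then wt p else 0 := by
    intro q _
    rw [← sum_filter, filter_filter]
  rw [sum_congr rfl h1, sum_comm]
  refine sum_congr rfl fun n _ => ?_
  rw [← sum_filter, sum_const, nsmul_eq_mul, mul_comm]

lemma sum_log_primeFactors (b : ℕ) (hb : 1 ≤ b) : ∑ p ∈ b.primeFactors, Real.log (p : ℝ) ≤ Real.log b := by
  rw [← Real.log_prod (fun p hp => by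
    have := (Nat.prime_of_mem_primeFactors hp).pos
    exact_mod_cast this.ne')]
  have h1 : ∏ p ∈ b.primeFactors, p ≤ b := Nat.le_of_dvd hb (Nat.prod_primeFactors_dvd b)
  apply Real.log_le_log
  · apply prod_pos
    intro p hp
    exact_mod_cast (Nat.prime_of_mem_primeFactors hp).pos
  · have h2 : ((∏ p ∈ b.primeFactors, p : ℕ) : ℝ) ≤ b := by exact_mod_cast h1
    rw [Nat.cast_prod] at h2
    exact h2

/-- the sums over the moduli, through the complementary divisors -/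
lemma t1_rowsz (t u v R : ℕ) (a : ℤ) (ha : a ≠ 0) (hR : t + a.natAbs < u * (R + 1)) :
    |∑ q ∈ (Ioc u v).filter (fun q => q.Coprime a.natAbs), thz t q a -
      ∑ s ∈ (Icc 1 R).filter (fun s => s.Coprime a.natAbs),
        ∑ p ∈ (Icc 1 t).filter (fun p : ℕ => p.Prime ∧ ((s : ℤ) ∣ (p : ℤ) - a ∧ u * s < ((p : ℤ) - a).natAbs ∧
          ((p : ℤ) - a).natAbs ≤ v * s)), Real.log (p : ℝ)| ≤ (v + R) * Real.log a.natAbs := by
  classical
  obtain ⟨F, hF⟩ : ∃ F : Finset ℕ, F = (Ioc u v).filter (fun q => q.Coprime a.natAbs) := ⟨_, rfl⟩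
  obtain ⟨S, hS⟩ : ∃ S : Finset ℕ, S = (Icc 1 R).filter (fun s => s.Coprime a.natAbs) := ⟨_, rfl⟩
  rw [← hF, ← hS]
  have hb : 1 ≤ a.natAbs := Nat.one_le_iff_ne_zero.2 (Int.natAbs_ne_zero.2 ha)
  unfold thz
  rw [swapr F t (fun p : ℕ => Real.log (p : ℝ)) (fun q p : ℕ => (q : ℤ) ∣ (p : ℤ) - a),
    swapr S t (fun p : ℕ => Real.log (p : ℝ)) (fun s p : ℕ => (s : ℤ) ∣ (p : ℤ) - a ∧ u * s < ((p : ℤ) - a).natAbs ∧
          ((p : ℤ) - a).natAbs ≤ v * s), ← sum_sub_distrib]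
  refine (abs_sum_le_sum_abs _ _).trans ?_
  have hF1 : F.card ≤ v := by
    rw [hF]
    refine (card_filter_le _ _).trans ?_
    rw [Nat.card_Ioc]
    omega
  have hS1 : S.card ≤ R := by
    rw [hS]
    refine (card_filter_le _ _).trans ?_
    rw [Nat.card_Icc]
    omega
  have h1 : ∀ p ∈ (Icc 1 t).filter (fun p => p.Prime),
      |Real.log (p : ℝ) * ((F.filter (fun q : ℕ => (q : ℤ) ∣ (p : ℤ) - a)).card : ℝ) -
        Real.log (p : ℝ) * ((S.filter (fun s : ℕ => (s : ℤ) ∣ (p : ℤ) - a ∧ u * s < ((p : ℤ) - a).natAbs ∧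
          ((p : ℤ) - a).natAbs ≤ v * s)).card : ℝ)| ≤ if p ∣ a.natAbs then (v + R) * Real.log (p : ℝ) else 0 := by
    intro p hp
    rw [mem_filter, mem_Icc] at hp
    have hlp : 0 ≤ Real.log (p : ℝ) := Real.log_natCast_nonneg p
    split_ifs with hpb
    · have h2 : ((F.filter (fun q : ℕ => (q : ℤ) ∣ (p : ℤ) - a)).card : ℝ) ≤ v := by
        exact_mod_cast (card_filter_le _ _).trans hF1
      have h3 : ((S.filter (fun s : ℕ => (s : ℤ) ∣ (p : ℤ) - a ∧ u * s < ((p : ℤ) - a).natAbs ∧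
          ((p : ℤ) - a).natAbs ≤ v * s)).card : ℝ) ≤ R := by
        exact_mod_cast (card_filter_le _ _).trans hS1
      rw [← mul_sub, abs_mul, abs_of_nonneg hlp, mul_comm]
      apply mul_le_mul_of_nonneg_right _ hlp
      have h4 : (0 : ℝ) ≤ ((F.filter (fun q : ℕ => (q : ℤ) ∣ (p : ℤ) - a)).card : ℝ) := Nat.cast_nonneg _
      have h5 : (0 : ℝ) ≤ ((S.filter (fun s : ℕ => (s : ℤ) ∣ (p : ℤ) - a ∧ u * s < ((p : ℤ) - a).natAbs ∧
          ((p : ℤ) - a).natAbs ≤ v * s)).card : ℝ) := Nat.cast_nonneg _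
      rw [abs_le]
      constructor <;> linarith
    · have h2 := n12 a p u v R hp.2 hpb (by omega)
      rw [← hF, ← hS] at h2
      unfold n1 n2 at h2
      rw [h2, sub_self, abs_zero]
  refine (sum_le_sum h1).trans ?_
  rw [← sum_filter, ← mul_sum]
  apply mul_le_mul_of_nonneg_left _ (by positivity)
  refine le_trans ?_ (sum_log_primeFactors a.natAbs hb)
  apply sum_le_sum_of_subset_of_nonneg
  · intro p hp
    rw [mem_filter, mem_filter] at hp
    rw [Nat.mem_primeFactors]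
    exact ⟨hp.1.2, hp.2, by omega⟩
  · intro p _ _
    exact Real.log_natCast_nonneg p

end Pool.Agent.V5helper42.FP
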