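import Pool.Agent.V5helper42.FP.I1

/-!
# Signed sums over moduli, all integers: the rows (helper42)
-/

set_option autoImplicit false

namespace Pool.Agent.V5helper42.FP

open Finset Filter Topology Asymptotics
open Pool.Agent.V5helper42.FG

/-- the part of `y` in `[0, t]` -/
def cl (t : ℕ) (y : ℤ) : ℕ := min y.toNat t

lemma cut (t U V : ℕ) (a : ℤ) (hUV : U ≤ V) (f : ℕ → ℝ) :
    ∑ n ∈ (Icc 1 t).filter (fun n : ℕ => U < ((n : ℤ) - a).natAbs ∧ ((n : ℤ) - a).natAbs ≤ V), f n =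
      ∑ n ∈ Ioc (cl t (a + U)) (cl t (a + V)), f n + ∑ n ∈ Ioc (cl t (a - V - 1)) (cl t (a - U - 1)), f n := by
  classical
  rw [← sum_union]
  · refine sum_congr ?_ fun _ _ => rfl
    ext n
    unfold cl
    rw [mem_filter, mem_Icc, mem_union, mem_Ioc, mem_Ioc]
    omega
  · rw [disjoint_left]
    intro n hn hn2
    unfold cl at hn hn2
    rw [mem_Ioc] at hn hn2
    omega

lemma thz_sub (h1 h2 s : ℕ) (a : ℤ) (h : h1 ≤ h2) :
    ∑ n ∈ Ioc h1 h2, (if n.Prime ∧ (s : ℤ) ∣ (n : ℤ) - a then Real.log (n : ℝ) else 0) = thz h2 s a - thz h1 s a := by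
  classical
  unfold thz
  rw [sum_filter, sum_filter, eq_sub_iff_add_eq, add_comm, ← sum_union]
  · refine sum_congr ?_ fun _ _ => rfl
    ext n
    simp only [mem_Icc, mem_union, mem_Ioc]
    omega
  · rw [disjoint_left]
    intro n hn hn2
    rw [mem_Icc] at hn
    rw [mem_Ioc] at hn2
    omega

lemma row_cut (t u v s : ℕ) (a : ℤ) (huv : u ≤ v) :
    ∑ p ∈ (Icc 1 t).filter (fun p : ℕ => p.Prime ∧ ((s : ℤ) ∣ (p : ℤ) - a ∧ u * s < ((p : ℤ) - a).natAbs ∧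
          ((p : ℤ) - a).natAbs ≤ v * s)), Real.log (p : ℝ) =
      (thz (cl t (a + (v * s : ℕ))) s a - thz (cl t (a + (u * s : ℕ))) s a) +
        (thz (cl t (a - (u * s : ℕ) - 1)) s a - thz (cl t (a - (v * s : ℕ) - 1)) s a) := by
  classical
  have hUV : u * s ≤ v * s := Nat.mul_le_mul_right s huv
  have h1 := cut t (u * s) (v * s) a hUV (fun n => if n.Prime ∧ (s : ℤ) ∣ (n : ℤ) - a then Real.log (n : ℝ) else 0)
  rw [thz_sub _ _ _ _ (by unfold cl; omega), thz_sub _ _ _ _ (by unfold cl; omega)] at h1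
  rw [← h1, ← sum_filter, filter_filter]
  refine sum_congr ?_ fun _ _ => rfl
  ext n
  simp only [mem_filter]
  tauto

/-- the Bombieri-Vinogradov bound, integer residue -/
lemma bvz (x R : ℕ) (a : ℤ) (E : ℝ) (h : ℕ → ℕ) (hh : ∀ m, h m ≤ x)
    (hBV : ∀ r h : ℕ → ℕ, (∀ m ∈ Icc 1 R, Nat.Coprime (r m) m) → (∀ m, h m ≤ x) →
      ∑ m ∈ Icc 1 R, |∑ p ∈ (Icc 1 (h m)).filter (fun p => p.Prime ∧ p ≡ r m [MOD m]), Real.log p -
        (h m : ℝ) / Nat.totient m| ≤ E) :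
    ∑ s ∈ (Icc 1 R).filter (fun s => s.Coprime a.natAbs), |thz (h s) s a - (h s : ℝ) / (s.totient : ℝ)| ≤ E := by
  classical
  obtain ⟨c, hc⟩ : ∃ c : ℕ → ℕ, c = fun m => if m.Coprime a.natAbs then (a % (m : ℤ)).toNat else 1 := ⟨_, rfl⟩
  have key : ∀ m : ℕ, 1 ≤ m → m.Coprime a.natAbs → ((c m : ℕ) : ℤ) = a % (m : ℤ) := by
    intro m hm hmc
    rw [hc]
    dsimp only
    rw [if_pos hmc, Int.toNat_of_nonneg (Int.emod_nonneg _ (by omega))]
  have hc1 : ∀ m ∈ Icc 1 R, Nat.Coprime (c m) m := by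
    intro m hm
    rw [mem_Icc] at hm
    by_cases h1 : m.Coprime a.natAbs
    · have h2 := key m hm.1 h1
      have h3 : Int.gcd (a % (m : ℤ)) (m : ℤ) = Int.gcd a (m : ℤ) := by
        have h5 := Int.gcd_add_mul_left_left (m : ℤ) (a % (m : ℤ)) (a / (m : ℤ))
        rw [Int.emod_add_mul_ediv] at h5
        exact h5.symm
      have h4 : Nat.gcd (c m) m = Int.gcd ((c m : ℕ) : ℤ) (m : ℤ) := rfl
      rw [Nat.Coprime, h4, h2, h3, Int.gcd_comm]
      exact h1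
    · rw [hc]
      dsimp only
      rw [if_neg h1]
      exact Nat.coprime_one_left m
  have h1 := hBV c h hc1 hh
  refine le_trans ?_ h1
  refine le_trans (le_of_eq ?_) (sum_le_sum_of_subset_of_nonneg (filter_subset (fun s => s.Coprime a.natAbs) _) fun r _ _ => abs_nonneg _)
  refine sum_congr rfl fun s hs => ?_
  rw [mem_filter, mem_Icc] at hs
  have h2 := key s hs.1.1 hs.2
  unfold thz
  congr 3
  ext p
  rw [mem_filter, mem_filter]
  have h3 : ((s : ℤ) ∣ (p : ℤ) - a) ↔ p ≡ c s [MOD s] := by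
    rw [Nat.ModEq.comm, Nat.modEq_iff_dvd, h2]
    constructor
    · intro h4
      have h5 : (s : ℤ) ∣ a - a % (s : ℤ) := Int.dvd_self_sub_emod
      have := dvd_add h4 h5
      have e : (p : ℤ) - a + (a - a % (s : ℤ)) = (p : ℤ) - a % (s : ℤ) := by ring
      rwa [e] at this
    · intro h4
      have h5 : (s : ℤ) ∣ a - a % (s : ℤ) := Int.dvd_self_sub_emod
      have := dvd_sub h4 h5
      have e : (p : ℤ) - a % (s : ℤ) - (a - a % (s : ℤ)) = (p : ℤ) - a := by ring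
      rwa [e] at this
  rw [h3]

/-- length of a row -/
noncomputable def Lam (t u v s : ℕ) (a : ℤ) : ℝ :=
  ((cl t (a + (v * s : ℕ)) : ℝ) - cl t (a + (u * s : ℕ))) + ((cl t (a - (u * s : ℕ) - 1) : ℝ) - cl t (a - (v * s : ℕ) - 1))

/-- the rows, from Bombieri-Vinogradov -/
lemma rows_bvz (x t u v R : ℕ) (a : ℤ) (E : ℝ) (htx : t ≤ x) (huv : u ≤ v)
    (hBV : ∀ r h : ℕ → ℕ, (∀ m ∈ Icc 1 R, Nat.Coprime (r m) m) → (∀ m, h m ≤ x) →
      ∑ m ∈ Icc 1 R, |∑ p ∈ (Icc 1 (h m)).filter (fun p => p.Prime ∧ p ≡ r m [MOD m]), Real.log p -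
        (h m : ℝ) / Nat.totient m| ≤ E) :
    |∑ s ∈ (Icc 1 R).filter (fun s => s.Coprime a.natAbs),
        ∑ p ∈ (Icc 1 t).filter (fun p : ℕ => p.Prime ∧ ((s : ℤ) ∣ (p : ℤ) - a ∧ u * s < ((p : ℤ) - a).natAbs ∧
          ((p : ℤ) - a).natAbs ≤ v * s)), Real.log (p : ℝ) -
      ∑ s ∈ (Icc 1 R).filter (fun s => s.Coprime a.natAbs), Lam t u v s a / (s.totient : ℝ)| ≤ 4 * E := by
  have hcl : ∀ y : ℤ, cl t y ≤ x := fun y => (min_le_right _ _).trans htx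
  have b1 := bvz x R a E (fun s => cl t (a + (v * s : ℕ))) (fun _ => hcl _) hBV
  have b2 := bvz x R a E (fun s => cl t (a + (u * s : ℕ))) (fun _ => hcl _) hBV
  have b3 := bvz x R a E (fun s => cl t (a - (u * s : ℕ) - 1)) (fun _ => hcl _) hBV
  have b4 := bvz x R a E (fun s => cl t (a - (v * s : ℕ) - 1)) (fun _ => hcl _) hBV
  rw [← sum_sub_distrib]
  refine (abs_sum_le_sum_abs _ _).trans ?_
  have key : ∀ s ∈ (Icc 1 R).filter (fun s => s.Coprime a.natAbs),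
      |∑ p ∈ (Icc 1 t).filter (fun p : ℕ => p.Prime ∧ ((s : ℤ) ∣ (p : ℤ) - a ∧ u * s < ((p : ℤ) - a).natAbs ∧
          ((p : ℤ) - a).natAbs ≤ v * s)), Real.log (p : ℝ) - Lam t u v s a / (s.totient : ℝ)| ≤
      |thz (cl t (a + (v * s : ℕ))) s a - (cl t (a + (v * s : ℕ)) : ℝ) / (s.totient : ℝ)| +
      |thz (cl t (a + (u * s : ℕ))) s a - (cl t (a + (u * s : ℕ)) : ℝ) / (s.totient : ℝ)| +
      |thz (cl t (a - (u * s : ℕ) - 1)) s a - (cl t (a - (u * s : ℕ) - 1) : ℝ) / (s.totient : ℝ)| +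
      |thz (cl t (a - (v * s : ℕ) - 1)) s a - (cl t (a - (v * s : ℕ) - 1) : ℝ) / (s.totient : ℝ)| := by
    intro s _
    rw [row_cut t u v s a huv]
    unfold Lam
    have e : ∀ A1 A2 A3 A4 B1 B2 B3 B4 φ : ℝ,
        |(A1 - A2) + (A3 - A4) - ((B1 - B2) + (B3 - B4)) / φ| ≤
          |A1 - B1 / φ| + |A2 - B2 / φ| + |A3 - B3 / φ| + |A4 - B4 / φ| := by
      intro A1 A2 A3 A4 B1 B2 B3 B4 φ
      have e1 : (A1 - A2) + (A3 - A4) - ((B1 - B2) + (B3 - B4)) / φ =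
          ((A1 - B1 / φ) + -(A2 - B2 / φ)) + (A3 - B3 / φ) + -(A4 - B4 / φ) := by ring
      rw [e1]
      refine (abs_add_le _ _).trans ?_
      rw [abs_neg]
      refine add_le_add ((abs_add_le _ _).trans ?_) le_rfl
      refine add_le_add ((abs_add_le _ _).trans ?_) le_rfl
      rw [abs_neg]
    exact e _ _ _ _ _ _ _ _ _
  refine (sum_le_sum key).trans ?_
  rw [sum_add_distrib, sum_add_distrib, sum_add_distrib]
  linarith

end Pool.Agent.V5helper42.FP
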