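import Pool.Agent.V5helper42.FP.I2

/-!
# Signed sums over moduli, all integers: the main terms (helper42)
-/

set_option autoImplicit false

namespace Pool.Agent.V5helper42.FP

open Finset Filter Topology Asymptotics
open Pool.Agent.V5helper42.FG

/-- number of moduli of a row -/
def NN (u v s : ℕ) (A B : ℤ) : ℕ := ((Ioc u v).filter (fun q : ℕ => A < ((q * s : ℕ) : ℤ) ∧ ((q * s : ℕ) : ℤ) ≤ B)).card

lemma NN_eq (u v s : ℕ) (A B : ℤ) (hs : 0 < s) (huv : u ≤ v) :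
    NN u v s A B = (max (max (u * s) A.toNat) (min (v * s) B.toNat)) / s - (max (u * s) A.toNat) / s := by
  obtain ⟨α, hα⟩ : ∃ α : ℕ, α = max (u * s) A.toNat := ⟨_, rfl⟩
  obtain ⟨β, hβ⟩ : ∃ β : ℕ, β = max α (min (v * s) B.toNat) := ⟨_, rfl⟩
  rw [← hα, ← hβ, ← Nat.card_Ioc]
  unfold NN
  congr 1
  ext q
  rw [mem_filter, mem_Ioc, mem_Ioc, Nat.div_lt_iff_lt_mul hs, Nat.le_div_iff_mul_le hs]
  have h1 : u < q ↔ u * s < q * s := (Nat.mul_lt_mul_right hs).symm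
  have h2 : q ≤ v ↔ q * s ≤ v * s := (Nat.mul_le_mul_right_iff hs).symm
  rw [h1, h2, hβ, hα]
  have h3 : u * s ≤ v * s := Nat.mul_le_mul_right s huv
  generalize u * s = U at h3 ⊢
  generalize v * s = V at h3 ⊢
  generalize q * s = m
  omega

lemma len_NN (u v s : ℕ) (A B : ℤ) (hs : 0 < s) (huv : u ≤ v) :
    |((max (max (u * s) A.toNat) (min (v * s) B.toNat) : ℕ) : ℝ) - ((max (u * s) A.toNat : ℕ) : ℝ) - s * (NN u v s A B : ℝ)| ≤ s := by
  obtain ⟨α, hα⟩ : ∃ α : ℕ, α = max (u * s) A.toNat := ⟨_, rfl⟩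
  obtain ⟨β, hβ⟩ : ∃ β : ℕ, β = max α (min (v * s) B.toNat) := ⟨_, rfl⟩
  have h0 := NN_eq u v s A B hs huv
  rw [← hα, ← hβ] at h0 ⊢
  have hαβ : α ≤ β := by rw [hβ]; exact le_max_left _ _
  rw [h0, Nat.cast_sub (Nat.div_le_div_right hαβ)]
  have h1 := Nat.div_add_mod α s
  have h2 := Nat.div_add_mod β s
  have h3 := Nat.mod_lt α hs
  have h4 := Nat.mod_lt β hs
  have k1 : (s : ℝ) * ((α / s : ℕ) : ℝ) + ((α % s : ℕ) : ℝ) = α := by exact_mod_cast h1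
  have k2 : (s : ℝ) * ((β / s : ℕ) : ℝ) + ((β % s : ℕ) : ℝ) = β := by exact_mod_cast h2
  have k3 : ((α % s : ℕ) : ℝ) < s := by exact_mod_cast h3
  have k4 : ((β % s : ℕ) : ℝ) < s := by exact_mod_cast h4
  have k5 : (0 : ℝ) ≤ ((α % s : ℕ) : ℝ) := Nat.cast_nonneg _
  have k6 : (0 : ℝ) ≤ ((β % s : ℕ) : ℝ) := Nat.cast_nonneg _
  rw [abs_le]
  constructor <;> nlinarith only [k1, k2, k3, k4, k5, k6]

lemma Lam_NN (t u v s : ℕ) (a : ℤ) (hs : 0 < s) (huv : u ≤ v) :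
    |Lam t u v s a - s * ((NN u v s (-a) (t - a) : ℝ) + (NN u v s (a - t - 1) (a - 1) : ℝ))| ≤ 2 * s := by
  have h1 := len_NN u v s (-a) (t - a) hs huv
  have h2 := len_NN u v s (a - t - 1) (a - 1) hs huv
  have hUV : u * s ≤ v * s := Nat.mul_le_mul_right s huv
  unfold Lam cl
  obtain ⟨U, hU⟩ : ∃ U : ℕ, U = u * s := ⟨_, rfl⟩
  obtain ⟨V, hV⟩ : ∃ V : ℕ, V = v * s := ⟨_, rfl⟩
  rw [← hU, ← hV] at h1 h2 hUV ⊢
  have e1 : min (a + (V : ℤ)).toNat t + max U (-a).toNat = max (max U (-a).toNat) (min V ((t : ℤ) - a).toNat) + min (a + (U : ℤ)).toNat t := by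
    omega
  have e2 : min (a - (U : ℤ) - 1).toNat t + max U (a - t - 1).toNat =
      max (max U (a - t - 1).toNat) (min V (a - 1).toNat) + min (a - (V : ℤ) - 1).toNat t := by
    omega
  have f1 : ((min (a + (V : ℤ)).toNat t : ℕ) : ℝ) + ((max U (-a).toNat : ℕ) : ℝ) =
      ((max (max U (-a).toNat) (min V ((t : ℤ) - a).toNat) : ℕ) : ℝ) + ((min (a + (U : ℤ)).toNat t : ℕ) : ℝ) := by
    exact_mod_cast e1
  have f2 : ((min (a - (U : ℤ) - 1).toNat t : ℕ) : ℝ) + ((max U (a - t - 1).toNat : ℕ) : ℝ) =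
      ((max (max U (a - t - 1).toNat) (min V (a - 1).toNat) : ℕ) : ℝ) + ((min (a - (V : ℤ) - 1).toNat t : ℕ) : ℝ) := by
    exact_mod_cast e2
  obtain ⟨a1, a2⟩ := abs_le.1 h1
  obtain ⟨b1, b2⟩ := abs_le.1 h2
  rw [abs_le]
  constructor <;> linarith only [a1, a2, b1, b2, f1, f2]

/-- the sum over the rows -/
lemma sum_NN (u v R b : ℕ) (A B : ℤ) (hAB : A ≤ B) (hB : B.toNat < u * (R + 1)) :
    ∑ s ∈ (Icc 1 R).filter (fun s => s.Coprime b), (s : ℝ) / (s.totient : ℝ) * (NN u v s A B : ℝ) =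
      ∑ q ∈ Ioc u v, (g b (B.toNat / q) - g b (A.toNat / q)) := by
  classical
  unfold NN
  simp_rw [card_filter]
  push_cast
  simp_rw [mul_sum]
  rw [sum_comm]
  refine sum_congr rfl fun q hq => ?_
  rw [mem_Ioc] at hq
  unfold g
  simp only [mul_ite, mul_one, mul_zero]
  rw [← sum_filter, filter_filter, eq_sub_iff_add_eq, ← sum_union]
  · refine sum_congr ?_ fun _ _ => rfl
    ext s
    rw [mem_union, mem_filter, mem_filter, mem_filter, mem_Icc, mem_Icc, mem_Icc, Nat.le_div_iff_mul_le (by omega),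
      Nat.le_div_iff_mul_le (by omega)]
    have hpos : 1 ≤ s → 0 < s * q := fun h => Nat.mul_pos h (by omega)
    have hR : R + 1 ≤ s → u * (R + 1) ≤ s * q := by
      intro h
      calc u * (R + 1) ≤ q * s := Nat.mul_le_mul hq.1.le h
        _ = s * q := mul_comm _ _
    have e : (q : ℤ) * (s : ℤ) = ((s * q : ℕ) : ℤ) := by push_cast; ring
    rw [e]
    generalize s * q = m at hpos hR ⊢
    generalize u * (R + 1) = W at hB hR
    constructor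
    · rintro (⟨⟨h1, h2⟩, h3, h4⟩ | ⟨⟨h1, h2⟩, h3⟩)
      · have := hpos h1
        exact ⟨⟨h1, by omega⟩, h3⟩
      · exact ⟨⟨h1, by omega⟩, h3⟩
    · rintro ⟨⟨h1, h2⟩, h3⟩
      have := hpos h1
      by_cases h4 : m ≤ A.toNat
      · exact Or.inr ⟨⟨h1, h4⟩, h3⟩
      · refine Or.inl ⟨⟨h1, ?_⟩, h3, by omega, by omega⟩
        by_contra h5
        have := hR (by omega)
        omega
  · rw [disjoint_left]
    intro s hs hs2
    rw [mem_filter, mem_Icc] at hs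
    rw [mem_filter, mem_Icc, Nat.le_div_iff_mul_le (by omega)] at hs2
    have e : (q : ℤ) * (s : ℤ) = ((s * q : ℕ) : ℤ) := by push_cast; ring
    rw [e] at hs
    have hpos : 0 < s * q := Nat.mul_pos hs.1.1 (by omega)
    generalize s * q = m at hs hs2 hpos
    omega

/-- the lengths of the rows -/
lemma rows_lenz (t u v R : ℕ) (a : ℤ) (huv : u ≤ v) (hR : t + a.natAbs < u * (R + 1)) :
    |∑ s ∈ (Icc 1 R).filter (fun s => s.Coprime a.natAbs), Lam t u v s a / (s.totient : ℝ) -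
      ∑ q ∈ Ioc u v, ((g a.natAbs (((t : ℤ) - a).toNat / q) - g a.natAbs ((-a).toNat / q)) +
        (g a.natAbs ((a - 1).toNat / q) - g a.natAbs ((a - t - 1).toNat / q)))| ≤ 2 * (R : ℝ) ^ 2 := by
  have h1 := sum_NN u v R a.natAbs (-a) (t - a) (by omega) (by omega)
  have h2 := sum_NN u v R a.natAbs (a - t - 1) (a - 1) (by omega) (by omega)
  rw [sum_add_distrib, ← h1, ← h2, ← sum_add_distrib, ← sum_sub_distrib]
  refine (abs_sum_le_sum_abs _ _).trans ?_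
  have h3 : ∀ s ∈ (Icc 1 R).filter (fun s => s.Coprime a.natAbs),
      |Lam t u v s a / (s.totient : ℝ) - ((s : ℝ) / (s.totient : ℝ) * (NN u v s (-a) (t - a) : ℝ) +
        (s : ℝ) / (s.totient : ℝ) * (NN u v s (a - t - 1) (a - 1) : ℝ))| ≤ 2 * R := by
    intro s hs
    rw [mem_filter, mem_Icc] at hs
    have hs0 : 0 < s := by omega
    have hφ : (0 : ℝ) < s.totient := by exact_mod_cast Nat.totient_pos.2 hs0
    have h4 := Lam_NN t u v s a hs0 huv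
    have e : Lam t u v s a / (s.totient : ℝ) - ((s : ℝ) / (s.totient : ℝ) * (NN u v s (-a) (t - a) : ℝ) +
        (s : ℝ) / (s.totient : ℝ) * (NN u v s (a - t - 1) (a - 1) : ℝ)) =
        (Lam t u v s a - s * ((NN u v s (-a) (t - a) : ℝ) + (NN u v s (a - t - 1) (a - 1) : ℝ))) / (s.totient : ℝ) := by ring
    rw [e, abs_div, abs_of_pos hφ]
    have h5 : |Lam t u v s a - s * ((NN u v s (-a) (t - a) : ℝ) + (NN u v s (a - t - 1) (a - 1) : ℝ))| / (s.totient : ℝ) ≤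
        2 * s / (s.totient : ℝ) := div_le_div_of_nonneg_right h4 hφ.le
    have h6 := ratio_le s hs0
    have h7 : (s : ℝ) ≤ R := by exact_mod_cast hs.1.2
    rw [mul_div_assoc] at h5
    linarith
  refine (sum_le_card_nsmul _ _ _ h3).trans ?_
  rw [nsmul_eq_mul]
  have h4 : (((Icc 1 R).filter (fun s => s.Coprime a.natAbs)).card : ℝ) ≤ R := by exact_mod_cast vc_le a.natAbs R
  have h5 : (0 : ℝ) ≤ 2 * R := by positivity
  have := mul_le_mul_of_nonneg_right h4 h5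
  nlinarith only [this]

/-- the sum over the moduli of the weighted numbers of primes -/
lemma t1_mainz (x t u v R : ℕ) (a : ℤ) (κ ε B E : ℝ) (htx : t ≤ x) (ha : a ≠ 0) (hax : a.natAbs ≤ x) (hu : 1 ≤ u)
    (huv : u ≤ v) (hR : x + x < u * (R + 1)) (hκ0 : 0 ≤ κ) (hκ : κ ≤ 5) (hε : 0 ≤ ε)
    (hg : ∀ y : ℕ, |g a.natAbs y - κ * y| ≤ ε * y + B)
    (hBV : ∀ r h : ℕ → ℕ, (∀ m ∈ Icc 1 R, Nat.Coprime (r m) m) → (∀ m, h m ≤ x) →
      ∑ m ∈ Icc 1 R, |∑ p ∈ (Icc 1 (h m)).filter (fun p => p.Prime ∧ p ≡ r m [MOD m]), Real.log p -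
        (h m : ℝ) / Nat.totient m| ≤ E) :
    |∑ q ∈ (Ioc u v).filter (fun q => q.Coprime a.natAbs), thz t q a - κ * t * HH u v| ≤
      (v + R) * Real.log a.natAbs + 4 * E + 2 * (R : ℝ) ^ 2 + 6 * (ε * x * HH u v) + 4 * ((B + 5) * v) + 5 * HH u v := by
  have h1 := t1_rowsz t u v R a ha (by omega)
  have h2 := rows_bvz x t u v R a E htx huv hBV
  have h3 := rows_lenz t u v R a huv (by omega)
  have hy : ∀ y : ℕ, |∑ q ∈ Ioc u v, g a.natAbs (y / q) - κ * y * HH u v| ≤ ε * y * HH u v + (B + 5) * v :=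
    fun y => sum_g a.natAbs u v y κ ε B hκ0 hκ hε hu hg
  have g1 := hy ((t : ℤ) - a).toNat
  have g2 := hy (-a).toNat
  have g3 := hy (a - 1).toNat
  have g4 := hy (a - t - 1).toNat
  rw [sum_add_distrib, sum_sub_distrib, sum_sub_distrib] at h3
  have hH := HH_nonneg u v
  -- the total length
  have e1 : t ≤ (((t : ℤ) - a).toNat + (a - 1).toNat + 1) - ((-a).toNat + (a - t - 1).toNat) ∧
      ((t : ℤ) - a).toNat + (a - 1).toNat ≤ t + ((-a).toNat + (a - t - 1).toNat) ∧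
      (-a).toNat + (a - t - 1).toNat ≤ ((t : ℤ) - a).toNat + (a - 1).toNat + 1 := by omega
  have e2 : (t : ℝ) + ((-a).toNat : ℝ) + ((a - t - 1).toNat : ℝ) ≤ (((t : ℤ) - a).toNat : ℝ) + ((a - 1).toNat : ℝ) + 1 := by
    have : t + (-a).toNat + (a - t - 1).toNat ≤ ((t : ℤ) - a).toNat + (a - 1).toNat + 1 := by omega
    exact_mod_cast this
  have e3 : (((t : ℤ) - a).toNat : ℝ) + ((a - 1).toNat : ℝ) ≤ (t : ℝ) + ((-a).toNat : ℝ) + ((a - t - 1).toNat : ℝ) := by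
    have : ((t : ℤ) - a).toNat + (a - 1).toNat ≤ t + (-a).toNat + (a - t - 1).toNat := by omega
    exact_mod_cast this
  have e4 : (((t : ℤ) - a).toNat : ℝ) + ((-a).toNat : ℝ) + ((a - 1).toNat : ℝ) + ((a - t - 1).toNat : ℝ) ≤ 6 * x := by
    have : ((t : ℤ) - a).toNat + (-a).toNat + (a - 1).toNat + (a - t - 1).toNat ≤ 6 * x := by omega
    exact_mod_cast this
  obtain ⟨y1, hy1⟩ : ∃ y : ℝ, y = (((t : ℤ) - a).toNat : ℝ) := ⟨_, rfl⟩
  obtain ⟨y2, hy2⟩ : ∃ y : ℝ, y = ((-a).toNat : ℝ) := ⟨_, rfl⟩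
  obtain ⟨y3, hy3⟩ : ∃ y : ℝ, y = ((a - 1).toNat : ℝ) := ⟨_, rfl⟩
  obtain ⟨y4, hy4⟩ : ∃ y : ℝ, y = ((a - t - 1).toNat : ℝ) := ⟨_, rfl⟩
  rw [← hy1] at g1 e2 e3 e4
  rw [← hy2] at g2 e2 e3 e4
  rw [← hy3] at g3 e2 e3 e4
  rw [← hy4] at g4 e2 e3 e4
  obtain ⟨H, hHd⟩ : ∃ H : ℝ, H = HH u v := ⟨_, rfl⟩
  rw [← hHd] at g1 g2 g3 g4 hH ⊢
  have k1 : ε * y1 * H + ε * y2 * H + ε * y3 * H + ε * y4 * H ≤ 6 * (ε * x * H) := by
    have := mul_le_mul_of_nonneg_left e4 (mul_nonneg hε hH)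
    nlinarith only [this]
  have k2 : κ * t * H ≤ κ * (y1 - y2 + y3 - y4) * H + 5 * H := by
    have h4 : κ * (t - (y1 - y2 + y3 - y4)) ≤ 5 * 1 := by
      have h5 : (t : ℝ) - (y1 - y2 + y3 - y4) ≤ 1 := by linarith
      have h6 : 0 ≤ (t : ℝ) - (y1 - y2 + y3 - y4) := by linarith
      exact mul_le_mul hκ h5 h6 (by norm_num)
    have := mul_le_mul_of_nonneg_right h4 hH
    nlinarith only [this]
  have k3 : κ * (y1 - y2 + y3 - y4) * H ≤ κ * t * H := by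
    apply mul_le_mul_of_nonneg_right _ hH
    exact mul_le_mul_of_nonneg_left (by linarith) hκ0
  obtain ⟨p1, p2⟩ := abs_le.1 h1
  obtain ⟨q1, q2⟩ := abs_le.1 h2
  obtain ⟨r1, r2⟩ := abs_le.1 h3
  obtain ⟨s1, s2⟩ := abs_le.1 g1
  obtain ⟨s3, s4⟩ := abs_le.1 g2
  obtain ⟨s5, s6⟩ := abs_le.1 g3
  obtain ⟨s7, s8⟩ := abs_le.1 g4
  rw [abs_le]
  constructor <;> linarith only [p1, p2, q1, q2, r1, r2, s1, s2, s3, s4, s5, s6, s7, s8, k1, k2, k3]

end Pool.Agent.V5helper42.FP
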