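import Pool.Agent.V5helper42.FP.I3

/-!
# Signed sums over moduli, all integers: partial summation, explicit bound (helper42)
-/

set_option autoImplicit false

namespace Pool.Agent.V5helper42.FP

open Finset Filter Topology Asymptotics
open Pool.Agent.V5helper42.FG

/-- number of the primes `p ≤ x` with `p ≡ a (mod q)` -/
def piMod (x q : ℕ) (a : ℤ) : ℕ := ((Icc 1 x).filter (fun p : ℕ => p.Prime ∧ (q : ℤ) ∣ (p : ℤ) - a)).card

/-- the signed sum over the moduli -/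
noncomputable def devz (x u v : ℕ) (a : ℤ) : ℝ :=
  ∑ q ∈ (Ioc u v).filter (fun q => q.Coprime a.natAbs), ((piMod x q a : ℝ) - (Nat.primeCounting x : ℝ) / (q.totient : ℝ))

/-- from the weighted sums to the number of primes -/
lemma devz_le (x u v : ℕ) (a : ℤ) (M : ℝ) (hx : 2 ≤ x)
    (hM : ∀ t : ℕ, t ≤ x → |∑ q ∈ (Ioc u v).filter (fun q => q.Coprime a.natAbs), thz t q a -
      (∑ p ∈ (Icc 1 t).filter (fun p => p.Prime), Real.log (p : ℝ)) *
        ∑ q ∈ (Ioc u v).filter (fun q => q.Coprime a.natAbs), 1 / (q.totient : ℝ)| ≤ M) :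
    |devz x u v a| ≤ 2 * M := by
  classical
  obtain ⟨F, hF⟩ : ∃ F : Finset ℕ, F = (Ioc u v).filter (fun q => q.Coprime a.natAbs) := ⟨_, rfl⟩
  rw [← hF] at hM
  obtain ⟨Φ, hΦ⟩ : ∃ Φ : ℝ, Φ = ∑ q ∈ F, 1 / (q.totient : ℝ) := ⟨_, rfl⟩
  rw [← hΦ] at hM
  obtain ⟨f, hf⟩ : ∃ f : ℕ → ℝ, f = fun n => if n.Prime then Real.log (n : ℝ) *
    (((F.filter (fun q : ℕ => (q : ℤ) ∣ (n : ℤ) - a)).card : ℝ) - Φ) else 0 := ⟨_, rfl⟩
  have hf1 : ∀ n, n ≤ 1 → f n = 0 := by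
    intro n hn
    rw [hf]
    dsimp only
    rw [if_neg]
    intro h
    exact absurd h.two_le (by omega)
  have hsum : ∀ t : ℕ, ∑ n ∈ Icc 1 t, f n = ∑ q ∈ F, thz t q a -
      (∑ p ∈ (Icc 1 t).filter (fun p => p.Prime), Real.log (p : ℝ)) * Φ := by
    intro t
    rw [hf]
    dsimp only
    rw [← sum_filter]
    simp_rw [mul_sub]
    rw [sum_sub_distrib, ← sum_mul]
    congr 1
    unfold thz
    exact (swapr F t (fun n => Real.log (n : ℝ)) (fun q p : ℕ => (q : ℤ) ∣ (p : ℤ) - a)).symm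
  have h1 := abel f M x hf1 hx (fun t ht => by rw [hsum t]; exact hM t ht)
  have h2 : ∑ n ∈ Icc 1 x, f n / Real.log n = devz x u v a := by
    unfold devz
    rw [← hF, sum_sub_distrib]
    have e1 : ∑ q ∈ F, (Nat.primeCounting x : ℝ) / (q.totient : ℝ) = (Nat.primeCounting x : ℝ) * Φ := by
      rw [hΦ, mul_sum]
      exact sum_congr rfl fun q _ => by ring
    have e2 : (Nat.primeCounting x : ℝ) = ∑ p ∈ (Icc 1 x).filter (fun p => p.Prime), (1 : ℝ) := by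
      rw [sum_const, nsmul_eq_mul, mul_one]
      congr 1
      rw [Nat.primeCounting, Nat.primeCounting', Nat.count_eq_card_filter_range]
      congr 1
      ext n
      simp only [mem_filter, mem_range, mem_Icc]
      constructor
      · rintro ⟨h3, h4⟩
        exact ⟨⟨h4.one_le, by omega⟩, h4⟩
      · rintro ⟨⟨h3, h5⟩, h4⟩
        exact ⟨by omega, h4⟩
    rw [e1, e2, sum_mul]
    have e3 : ∑ n ∈ Icc 1 x, f n / Real.log n =
        ∑ n ∈ (Icc 1 x).filter (fun p => p.Prime), (((F.filter (fun q : ℕ => (q : ℤ) ∣ (n : ℤ) - a)).card : ℝ) - Φ) := by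
      rw [sum_filter]
      refine sum_congr rfl fun n _ => ?_
      rw [hf]
      dsimp only
      split_ifs with hn
      · have : Real.log (n : ℝ) ≠ 0 := (Real.log_pos (by exact_mod_cast hn.one_lt)).ne'
        field_simp
      · simp
    rw [e3, sum_sub_distrib]
    simp_rw [one_mul]
    congr 1
    have h3 := swapr F x (fun _ => (1 : ℝ)) (fun q p : ℕ => (q : ℤ) ∣ (p : ℤ) - a)
    simp only [one_mul, sum_const, nsmul_eq_mul, mul_one] at h3
    rw [← h3]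
    rfl
  rw [h2] at h1
  exact h1

/-- the bound with explicit parameters -/
lemma corez (x u v R D : ℕ) (a : ℤ) (ε ε' E L : ℝ) (hx : 2 ≤ x) (hL : L = Real.log x) (hL1 : 1 ≤ L) (ha : a ≠ 0)
    (hax : a.natAbs ≤ x) (hu : 1 ≤ u) (huv : u ≤ v) (hvx : v ≤ x) (hR1 : 1 ≤ R) (hR : x + x < u * (R + 1)) (hD : 1 ≤ D)
    (hε : 0 ≤ ε) (hε1 : ε' ≤ 1 / 2)
    (hvc : ∀ z : ℕ, (D : ℝ) ≤ z → |(vc a.natAbs z : ℝ) - rho a.natAbs * z| ≤ ε * z)
    (hε' : 5 * ε + (1 + Real.log D) ^ 2 / D + 4 / Real.sqrt D ≤ ε') (hDu : 20 * (D : ℝ) ^ 2 ≤ ε' * u)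
    (hBV : ∀ r h : ℕ → ℕ, (∀ m ∈ Icc 1 R, Nat.Coprime (r m) m) → (∀ m, h m ≤ x) →
      ∑ m ∈ Icc 1 R, |∑ p ∈ (Icc 1 (h m)).filter (fun p => p.Prime ∧ p ≡ r m [MOD m]), Real.log p -
        (h m : ℝ) / Nat.totient m| ≤ E) :
    |devz x u v a| ≤ 2 * ((v + R) * L + 80 * ((D : ℝ) ^ 2 * v) + 20 * v + 2 * (R : ℝ) ^ 2 + 18 * (E * L) +
      20 * (ε' * x * L) + 10 * L) := by
  apply devz_le x u v a _ hx
  intro t ht
  obtain ⟨κ, hκ⟩ : ∃ κ : ℝ, κ = rho a.natAbs * GD a.natAbs D := ⟨_, rfl⟩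
  have hκ0 : 0 ≤ κ := by rw [hκ]; exact mul_nonneg (rho01 _).1 (GD_nonneg _ D)
  have hκ5 : κ ≤ 5 := by
    rw [hκ]
    calc rho a.natAbs * GD a.natAbs D ≤ 1 * 5 := mul_le_mul (rho01 _).2 (GD_le _ D) (GD_nonneg _ D) zero_le_one
      _ = 5 := by norm_num
  have hε'0 : 0 ≤ ε' := by
    have h1 : 0 ≤ (1 + Real.log D) ^ 2 / D := by positivity
    have h2 : 0 ≤ 4 / Real.sqrt D := by positivity
    linarith
  have hg : ∀ y : ℕ, |g a.natAbs y - κ * y| ≤ ε' * y + 20 * (D : ℝ) ^ 2 := by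
    intro y
    rw [hκ]
    exact g_all a.natAbs D ε ε' hε hD hvc hε' y
  have h1 := t1_mainz x t u v R a κ ε' (20 * (D : ℝ) ^ 2) E ht ha hax hu huv hR hκ0 hκ5 hε'0 hg hBV
  -- the prime number theorem
  have hE0 : 0 ≤ E := le_trans (sum_nonneg fun _ _ => abs_nonneg _) (hBV (fun _ => 1) (fun _ => t) (fun m _ => Nat.coprime_one_left m) (fun _ => ht))
  obtain ⟨θ, hθ⟩ : ∃ θ : ℝ, θ = ∑ p ∈ (Icc 1 t).filter (fun p => p.Prime), Real.log (p : ℝ) := ⟨_, rfl⟩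
  have hθt : |θ - t| ≤ E := by
    have h2 := hBV (fun _ => 1) (fun _ => t) (fun m _ => Nat.coprime_one_left m) (fun _ => ht)
    refine le_trans ?_ h2
    have h3 := single_le_sum (s := Icc 1 R) (f := fun m => |∑ p ∈ (Icc 1 t).filter (fun p => p.Prime ∧ p ≡ 1 [MOD m]), Real.log (p : ℝ) -
        (t : ℝ) / Nat.totient m|) (fun _ _ => abs_nonneg _) (mem_Icc.2 ⟨le_rfl, hR1⟩)
    refine le_trans (le_of_eq ?_) h3
    rw [hθ, Nat.totient_one, Nat.cast_one, div_one]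
    congr 3
    ext p
    simp [Nat.modEq_one]
  rw [← hθ]
  -- the expected number
  have hgq : ∀ q : ℕ, u ≤ q → |g a.natAbs q - κ * q| ≤ (2 * ε') * q := by
    intro q hq
    have h2 := hg q
    have h3 : (u : ℝ) ≤ q := by exact_mod_cast hq
    have h4 := mul_le_mul_of_nonneg_left h3 hε'0
    linarith
  have h2 := expect' a.natAbs u v κ (2 * ε') hu huv hgq
  obtain ⟨Φ, hΦ⟩ : ∃ Φ : ℝ, Φ = ∑ q ∈ (Ioc u v).filter (fun q => q.Coprime a.natAbs), 1 / (q.totient : ℝ) := ⟨_, rfl⟩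
  rw [← hΦ] at h2 ⊢
  obtain ⟨T1, hT1⟩ : ∃ T1 : ℝ, T1 = ∑ q ∈ (Ioc u v).filter (fun q => q.Coprime a.natAbs), thz t q a := ⟨_, rfl⟩
  rw [← hT1] at h1 ⊢
  have hH0 := HH_nonneg u v
  have hv0 : (0 : ℝ) < v := by exact_mod_cast (by omega : 0 < v)
  have hx0 : (0 : ℝ) < x := by exact_mod_cast (by omega : 0 < x)
  have hH1 : HH u v ≤ 2 * L := by
    have h3 := HH_le u v
    have h4 : Real.log (v : ℝ) ≤ L := by
      rw [hL]
      exact Real.log_le_log hv0 (by exact_mod_cast hvx)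
    linarith
  obtain ⟨H, hH⟩ : ∃ H : ℝ, H = HH u v := ⟨_, rfl⟩
  rw [← hH] at h1 h2 hH0 hH1
  have hlogaL : Real.log (a.natAbs : ℝ) ≤ L := by
    rw [hL]
    exact Real.log_le_log (by exact_mod_cast (Int.natAbs_pos.2 ha)) (by exact_mod_cast hax)
  have hΦ0 : 0 ≤ Φ := by
    rw [hΦ]
    exact sum_nonneg fun q _ => by positivity
  have hΦ1 : Φ ≤ 14 * L := by
    have h3 := (abs_le.1 h2).2
    have h4 : κ * H ≤ 5 * H := mul_le_mul_of_nonneg_right hκ5 hH0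
    have h5 : 2 * ε' * (2 + H) ≤ 1 * (2 + H) := mul_le_mul_of_nonneg_right (by linarith) (by linarith)
    linarith
  have htx : (t : ℝ) ≤ x := by exact_mod_cast ht
  have ht0 : (0 : ℝ) ≤ t := Nat.cast_nonneg t
  have h3 : |θ * Φ - κ * t * H| ≤ E * (14 * L) + x * (2 * ε' * (2 + 2 * L)) := by
    have e : θ * Φ - κ * t * H = (θ - t) * Φ + t * (Φ - κ * H) := by ring
    rw [e]
    refine (abs_add_le _ _).trans ?_
    rw [abs_mul, abs_mul, abs_of_nonneg hΦ0, abs_of_nonneg ht0]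
    have h4 : |θ - t| * Φ ≤ E * (14 * L) := mul_le_mul hθt hΦ1 hΦ0 hE0
    have h5 : t * |Φ - κ * H| ≤ x * (2 * ε' * (2 + 2 * L)) := by
      refine mul_le_mul htx (h2.trans ?_) (abs_nonneg _) hx0.le
      exact mul_le_mul_of_nonneg_left (by linarith) (by linarith)
    linarith
  have b1 : (v + R) * Real.log (a.natAbs : ℝ) ≤ (v + R) * L := mul_le_mul_of_nonneg_left hlogaL (by positivity)
  have b2 : ε' * x * H ≤ ε' * x * (2 * L) := mul_le_mul_of_nonneg_left hH1 (by positivity)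
  have b4 : E ≤ E * L := le_mul_of_one_le_right hE0 hL1
  have b5 : ε' * x ≤ ε' * x * L := le_mul_of_one_le_right (by positivity) hL1
  obtain ⟨a1, a2⟩ := abs_le.1 h1
  obtain ⟨c1, c2⟩ := abs_le.1 h3
  rw [abs_le]
  constructor <;> nlinarith only [a1, a2, c1, c2, b1, b2, b4, b5, hH1, hv0]

end Pool.Agent.V5helper42.FP
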